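import Mathlib

set_option autoImplicit false

/-!
Polynomial functions of integer vectors and their list codes.
-/

namespace Pool.Agent.MP_fed7c7_lc.H56

open MvPolynomial

/-- Functions given by a polynomial with integer coefficients. -/
@[fun_prop]
def PF {σ : Type} (F : (σ → ℤ) → ℤ) : Prop := ∃ q : MvPolynomial σ ℤ, ∀ v, F v = eval v q

variable {σ : Type} {F G : (σ → ℤ) → ℤ}

@[fun_prop]
theorem PF.const (c : ℤ) : PF fun _ : σ → ℤ => c := ⟨C c, fun _ => by simp⟩

@[fun_prop]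
theorem PF.proj (i : σ) : PF fun v : σ → ℤ => v i := ⟨X i, fun _ => by simp⟩

@[fun_prop]
theorem PF.add (h : PF F) (g : PF G) : PF fun v => F v + G v := by
  obtain ⟨p, hp⟩ := h
  obtain ⟨q, hq⟩ := g
  exact ⟨p + q, fun v => by simp [hp, hq]⟩

@[fun_prop]
theorem PF.sub (h : PF F) (g : PF G) : PF fun v => F v - G v := by
  obtain ⟨p, hp⟩ := h
  obtain ⟨q, hq⟩ := g
  exact ⟨p - q, fun v => by simp [hp, hq]⟩

@[fun_prop]
theorem PF.mul (h : PF F) (g : PF G) : PF fun v => F v * G v := by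
  obtain ⟨p, hp⟩ := h
  obtain ⟨q, hq⟩ := g
  exact ⟨p * q, fun v => by simp [hp, hq]⟩

@[fun_prop]
theorem PF.pow (h : PF F) (n : ℕ) : PF fun v => F v ^ n := by
  obtain ⟨p, hp⟩ := h
  exact ⟨p ^ n, fun v => by simp [hp]⟩

@[fun_prop]
theorem PF.sum {J : Type} (s : Finset J) {H : J → (σ → ℤ) → ℤ} (h : ∀ j, PF (H j)) :
    PF fun v => ∑ j ∈ s, H j v := by
  choose q hq using h
  exact ⟨∑ j ∈ s, q j, fun v => by simp [hq]⟩

/-- The value of a list of monomials. -/
def ev {n : ℕ} (l : List (ℤ × (Fin n → ℕ))) (x : Fin n → ℤ) : ℤ :=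
  (l.map fun t => t.1 * ∏ i, x i ^ t.2 i).sum

theorem PF.code {n : ℕ} {F : (Fin n → ℤ) → ℤ} (h : PF F) : ∃ l, ∀ x, F x = ev l x := by
  obtain ⟨q, hq⟩ := h
  refine ⟨q.support.toList.map fun d => (coeff d q, d), fun x => ?_⟩
  rw [hq, eval_eq', ev, List.map_map, ← Finset.sum_map_toList]
  rfl

theorem primrec_mul_cast (c : ℤ) {h : ℕ → ℕ} (hh : Primrec h) : Primrec fun a => c * (h a : ℤ) := by
  have h1 : Primrec fun n : ℕ => (n : ℤ) :=
    Primrec.encode_iff.1 ((Primrec.nat_mul.comp (Primrec.const 2) Primrec.id).of_eq fun n => rfl)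
  have h2 : Primrec fun n : ℕ => -(n : ℤ) :=
    Primrec.encode_iff.1 ((Primrec.nat_sub.comp
      (Primrec.nat_mul.comp (Primrec.const 2) Primrec.id) (Primrec.const 1)).of_eq fun n => by
        rcases n with _ | n
        · rfl
        · change 2 * (n + 1) - 1 = 2 * n + 1
          omega)
  obtain ⟨k, rfl | rfl⟩ := c.eq_nat_or_neg
  · exact (h1.comp (Primrec.nat_mul.comp (Primrec.const k) hh)).of_eq fun a => by simp
  · exact (h2.comp (Primrec.nat_mul.comp (Primrec.const k) hh)).of_eq fun a => by simp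

theorem primrec_pow : Primrec₂ fun a b : ℕ => a ^ b := Primrec₂.unpaired'.1 Nat.Primrec.pow

/-- Substituting `a` and `2 ^ a` for two variables is a primitive recursive map on codes. -/
theorem exists_code {n : ℕ} {F : ℤ → ℤ → (Fin n → ℤ) → ℤ}
    (h : PF fun v : Fin (n + 2) → ℤ => F (v 0) (v 1) fun i => v i.succ.succ) :
    ∃ c : ℕ → List (ℤ × (Fin n → ℕ)), Primrec c ∧ ∀ (a : ℕ) x, F a (2 ^ a) x = ev (c a) x := by
  obtain ⟨l, hl⟩ := h.code
  refine ⟨fun a => l.map fun t => (t.1 * (a ^ t.2 0 * (2 ^ a) ^ t.2 1 : ℕ), fun i => t.2 i.succ.succ),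
    ?_, fun a x => ?_⟩
  · clear hl
    induction l with
    | nil => exact Primrec.const _
    | cons t l ih =>
      exact Primrec.list_cons.comp ((primrec_mul_cast t.1 (Primrec.nat_mul.comp
        (primrec_pow.comp Primrec.id (Primrec.const _)) (primrec_pow.comp
          (primrec_pow.comp (Primrec.const 2) Primrec.id) (Primrec.const _)))).pair
            (Primrec.const _)) ih
  · refine (hl (Fin.cons a (Fin.cons (2 ^ a) x))).trans ?_
    rw [ev, ev, List.map_map]
    congr 1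
    refine List.map_congr_left fun t _ => ?_
    simp [Fin.prod_univ_succ, mul_assoc]

end Pool.Agent.MP_fed7c7_lc.H56
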