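import Mathlib

set_option autoImplicit false

/-!
The solutions of `x ^ 2 - (A ^ 2 - 1) y ^ 2 = 1`, indexed by integers.
-/

namespace Pool.Agent.MP_fed7c7_lc.H56

open Polynomial

/-- The `x`-sequence. -/
noncomputable def ch (A n : ℤ) : ℤ := (Chebyshev.T ℤ n).eval A

/-- The `y`-sequence. -/
noncomputable def ps (A n : ℤ) : ℤ := (Chebyshev.U ℤ (n - 1)).eval A

variable {A : ℤ}

theorem dv {a b c : ℤ} (h : a ∣ b) (e : c = b) : a ∣ c := e ▸ h

theorem ch_zero (A : ℤ) : ch A 0 = 1 := by simp [ch]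
theorem ps_zero (A : ℤ) : ps A 0 = 0 := by simp [ps]
theorem ps_one (A : ℤ) : ps A 1 = 1 := by simp [ps]
theorem ch_neg (A n : ℤ) : ch A (-n) = ch A n := by simp [ch]
theorem ps_neg (A n : ℤ) : ps A (-n) = -ps A n := by
  simp only [ps, Chebyshev.U_neg_sub_one, eval_neg]

theorem ps_succ (A n : ℤ) : ps A (n + 1) = ch A n + A * ps A n := by
  have := congrArg (eval A) (Chebyshev.T_eq_U_sub_X_mul_U ℤ n)
  simp only [eval_sub, eval_mul, eval_X] at this
  simp only [ps, ch, add_sub_cancel_right]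
  linarith

theorem ch_succ (A n : ℤ) : ch A (n + 1) = A * ch A n + (A ^ 2 - 1) * ps A n := by
  have := congrArg (eval A) (Chebyshev.T_eq_X_mul_T_sub_pol_U ℤ (n - 1))
  simp only [eval_sub, eval_mul, eval_X, eval_one, eval_pow] at this
  rw [show n - 1 + 2 = n + 1 by ring, show n - 1 + 1 = n by ring] at this
  simp only [ps, ch]
  linarith

theorem ps_pred (A n : ℤ) : ps A (n - 1) = A * ps A n - ch A n := by
  have := ps_succ A (-n)
  rw [show -n + 1 = -(n - 1) by ring, ps_neg, ps_neg, ch_neg] at this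
  linarith

theorem ch_pred (A n : ℤ) : ch A (n - 1) = A * ch A n - (A ^ 2 - 1) * ps A n := by
  have := ch_succ A (-n)
  rw [show -n + 1 = -(n - 1) by ring, ch_neg, ps_neg, ch_neg] at this
  linarith

theorem add_formula (A m n : ℤ) :
    ch A (m + n) = ch A m * ch A n + (A ^ 2 - 1) * ps A m * ps A n ∧
      ps A (m + n) = ps A m * ch A n + ch A m * ps A n := by
  induction n using Int.induction_on with
  | zero => simp [ch_zero, ps_zero]
  | succ n ih =>
    rw [← add_assoc, ch_succ, ps_succ, ch_succ, ps_succ, ih.1, ih.2]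
    constructor <;> ring
  | pred n ih =>
    rw [← add_sub_assoc, ch_pred, ps_pred, ch_pred, ps_pred, ih.1, ih.2]
    constructor <;> ring

theorem ch_add (A m n : ℤ) : ch A (m + n) = ch A m * ch A n + (A ^ 2 - 1) * ps A m * ps A n :=
  (add_formula A m n).1

theorem ps_add (A m n : ℤ) : ps A (m + n) = ps A m * ch A n + ch A m * ps A n :=
  (add_formula A m n).2

theorem pell (A n : ℤ) : ch A n ^ 2 = (A ^ 2 - 1) * ps A n ^ 2 + 1 := by
  have := ch_add A n (-n)
  rw [add_neg_cancel, ch_zero, ch_neg, ps_neg] at this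
  linarith

theorem ps_dvd_sub (A G n : ℤ) : G - A ∣ ps G n - ps A n := sub_dvd_eval_sub _ _ _

theorem ps_index (G n : ℤ) : G - 1 ∣ ps G n - n := by
  have := ps_dvd_sub 1 G n
  rwa [show ps 1 n = n by simp [ps]] at this

theorem ps_abs (A n : ℤ) (h : 0 ≤ ps A |n|) : |ps A n| = ps A |n| := by
  rcases abs_cases n with g | g
  · rw [g.1] at h ⊢; exact abs_of_nonneg h
  · rw [g.1] at h ⊢; rw [ps_neg] at h ⊢; exact abs_of_nonpos (by linarith)

theorem ch_pos (hA : 1 ≤ A) (n : ℤ) : 0 < ch A n := by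
  have key : ∀ k : ℕ, 0 < ch A k ∧ 0 ≤ ps A k := by
    intro k
    induction k with
    | zero => simp [ch_zero, ps_zero]
    | succ k ih =>
      push_cast
      rw [ch_succ, ps_succ]
      have : 0 ≤ A ^ 2 - 1 := by nlinarith
      have := ih.1
      have := ih.2
      constructor <;> positivity
  obtain ⟨k, rfl | rfl⟩ := n.eq_nat_or_neg
  · exact (key k).1
  · rw [ch_neg]; exact (key k).1

theorem ps_strictMono (hA : 1 ≤ A) : StrictMono (ps A) := by
  refine strictMono_int_of_lt_succ fun n => ?_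
  rw [ps_succ]
  have h1 := pell A n
  have h2 := ch_pos hA n
  have h3 : |(A - 1) * ps A n| < ch A n := by
    refine abs_lt_of_sq_lt_sq ?_ h2.le
    nlinarith [mul_nonneg (sub_nonneg.2 hA) (sq_nonneg (ps A n))]
  linarith [neg_abs_le ((A - 1) * ps A n)]

theorem ps_nonneg (hA : 1 ≤ A) {n : ℤ} (hn : 0 ≤ n) : 0 ≤ ps A n :=
  ps_zero A ▸ (ps_strictMono hA).monotone hn

theorem abs_ps (hA : 1 ≤ A) (n : ℤ) : |ps A n| = ps A |n| :=
  ps_abs A n (ps_nonneg hA (abs_nonneg n))

theorem ps_eq_zero (hA : 1 ≤ A) {n : ℤ} (h : ps A n = 0) : n = 0 :=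
  (ps_strictMono hA).injective (h.trans (ps_zero A).symm)

theorem ps_bounds (hA : 1 ≤ A) (n : ℕ) :
    (2 * A - 1) ^ n ≤ ps A (n + 1) ∧ ps A (n + 1) ≤ (2 * A) ^ n := by
  induction n with
  | zero => simp [ps_one]
  | succ n ih =>
    push_cast
    rw [ps_succ A (n + 1)]
    have h0 : 1 ≤ ps A (n + 1) := le_trans (one_le_pow₀ (by linarith)) ih.1
    have h1 := pell A (n + 1)
    have h2 := ch_pos hA (n + 1)
    set y := ps A (n + 1)
    set x := ch A (n + 1)
    have h3 : (A - 1) * y ≤ x := by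
      refine (le_abs_self _).trans (abs_le_of_sq_le_sq ?_ h2.le)
      nlinarith [mul_nonneg (sub_nonneg.2 hA) (sq_nonneg y)]
    have h4 : x ≤ A * y := by
      refine (le_abs_self _).trans (abs_le_of_sq_le_sq ?_ (by positivity))
      nlinarith
    rw [pow_succ, pow_succ]
    constructor <;> nlinarith [ih.1, ih.2]

theorem index_le (hA : 2 ≤ A) (n : ℤ) : 2 * |n| ≤ |ps A n| + 1 := by
  rw [abs_ps (by linarith)]
  obtain ⟨k, hk⟩ := Int.eq_ofNat_of_zero_le (abs_nonneg n)
  rw [hk]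
  rcases k with _ | k
  · simp [ps_zero]
  · have h1 := (ps_bounds (A := A) (by linarith) k).1
    have h2 : (1 + 2 : ℤ) ^ k ≤ (2 * A - 1) ^ k := pow_le_pow_left₀ (by norm_num) (by linarith) k
    have h3 := one_add_mul_le_pow (a := (2 : ℤ)) (by norm_num) k
    push_cast
    linarith

theorem exists_index (hA : 2 ≤ A) {x y : ℤ} (h : x ^ 2 = (A ^ 2 - 1) * y ^ 2 + 1) :
    ∃ n, y = ps A n := by
  have key : ∀ (k : ℕ) (x : ℤ), 0 < x → x ^ 2 = (A ^ 2 - 1) * (k : ℤ) ^ 2 + 1 →
      ∃ n, x = ch A n ∧ (k : ℤ) = ps A n := by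
    intro k
    induction k using Nat.strong_induction_on with
    | _ k ih =>
      intro x hx h
      rcases k.eq_zero_or_pos with rfl | hk
      · refine ⟨0, ?_, by simp [ps_zero]⟩
        rw [ch_zero]
        simp only [Nat.cast_zero] at h
        nlinarith
      · have hk' : (1 : ℤ) ≤ k := by exact_mod_cast hk
        have h3 : (A - 1) * k < x := by
          refine (le_abs_self _).trans_lt (abs_lt_of_sq_lt_sq ?_ hx.le)
          nlinarith [mul_nonneg (show 0 ≤ A - 1 by linarith) (sq_nonneg (k : ℤ))]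
        have h4 : x ≤ A * k := by
          refine (le_abs_self _).trans (abs_le_of_sq_le_sq ?_ (by positivity))
          nlinarith
        have h5 : (A ^ 2 - 1) * k < A * x := by
          refine (le_abs_self _).trans_lt (abs_lt_of_sq_lt_sq ?_ (by positivity))
          have : 0 ≤ (A ^ 2 - 1) * (k : ℤ) ^ 2 := mul_nonneg (by nlinarith) (sq_nonneg _)
          rw [mul_pow A x, h]
          nlinarith
        obtain ⟨j, hj⟩ := Int.eq_ofNat_of_zero_le (show 0 ≤ A * k - x by linarith)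
        obtain ⟨n, e1, e2⟩ := ih j (by zify; linarith) (A * x - (A ^ 2 - 1) * k) (by linarith)
          (by rw [← hj]; linear_combination h)
        refine ⟨n + 1, ?_, ?_⟩
        · rw [ch_succ, ← e1, ← e2, ← hj]; ring
        · rw [ps_succ, ← e1, ← e2, ← hj]; ring
  have hx : x ≠ 0 := by
    rintro rfl
    nlinarith [mul_nonneg (show 0 ≤ A ^ 2 - 1 by nlinarith) (sq_nonneg y)]
  obtain ⟨n, -, e⟩ := key y.natAbs |x| (abs_pos.2 hx) (by simpa using h)
  rcases Int.natAbs_eq y with g | g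
  · exact ⟨n, g.trans e⟩
  · exact ⟨-n, by rw [ps_neg, ← e]; exact g⟩

theorem mul_formula (A t : ℤ) (k : ℕ) :
    ∃ e₁ e₂, ch A (t * (k + 1)) = ch A t ^ (k + 1) + ps A t ^ 2 * e₁ ∧
      ps A (t * (k + 1)) = (k + 1) * ch A t ^ k * ps A t + ps A t ^ 3 * e₂ := by
  induction k with
  | zero => exact ⟨0, 0, by simp, by simp⟩
  | succ k ih =>
    obtain ⟨e₁, e₂, h1, h2⟩ := ih
    refine ⟨e₁ * ch A t + (A ^ 2 - 1) * ((k + 1) * ch A t ^ k + ps A t ^ 2 * e₂),
      e₁ + e₂ * ch A t, ?_, ?_⟩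
    · push_cast
      rw [mul_add t (k + 1) 1, mul_one, ch_add, h1, h2]
      ring
    · push_cast
      rw [mul_add t (k + 1) 1, mul_one, ps_add, h1, h2]
      ring

theorem ps_dvd_mul (A t k : ℤ) : ps A t ∣ ps A (t * k) := by
  induction k using Int.induction_on with
  | zero => simp [ps_zero]
  | succ k ih =>
    rw [mul_add, mul_one, ps_add]
    exact (ih.mul_right _).add (dvd_mul_left _ _)
  | pred k ih =>
    rw [mul_sub, mul_one, sub_eq_add_neg, ps_add, ps_neg]
    exact (ih.mul_right _).add ((dvd_neg.2 dvd_rfl).mul_left _)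

theorem coprime_of_dvd {c : ℤ} (A n : ℤ) (h : c ∣ ps A n) : IsCoprime c (ch A n) := by
  obtain ⟨e, he⟩ := h
  exact ⟨-((A ^ 2 - 1) * c * e ^ 2), ch A n, by
    have := pell A n
    rw [he] at this
    linear_combination this⟩

theorem dvd_index (hA : 1 ≤ A) {i m : ℤ} (h : ps A i ∣ ps A m) : i ∣ m := by
  rcases eq_or_ne i 0 with rfl | hi
  · rw [ps_zero, zero_dvd_iff] at h
    rw [ps_eq_zero hA h]
  · have h1 := Int.emod_nonneg m hi
    have h2 := Int.emod_lt_abs m hi
    have h3 := ps_dvd_mul A i (m / i)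
    rw [← Int.mul_ediv_add_emod m i, ps_add] at h
    have h4 := (coprime_of_dvd A _ h3).dvd_of_dvd_mul_left
      ((dvd_add_right (h3.mul_right _)).1 h)
    have h5 := Int.eq_zero_of_abs_lt_dvd ((abs_dvd _ _).2 h4) (by
      rw [abs_ps hA, abs_ps hA, abs_of_nonneg h1]
      exact ps_strictMono hA h2)
    exact Int.dvd_of_emod_eq_zero (ps_eq_zero hA h5)

theorem dvd_of_sq_dvd (hA : 1 ≤ A) {i m : ℤ} (h : ps A i ^ 2 ∣ ps A m) : ps A i ∣ m := by
  obtain ⟨k, rfl⟩ := dvd_index hA ((dvd_pow_self _ two_ne_zero).trans h)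
  rcases eq_or_ne i 0 with rfl | hi
  · simp
  have h0 : ps A i ≠ 0 := fun g => hi (ps_eq_zero hA g)
  have key : ∀ k : ℕ, ps A i ^ 2 ∣ ps A (i * k) → ps A i ∣ k := by
    intro k h
    rcases k with _ | k
    · simp
    obtain ⟨-, e, -, h2⟩ := mul_formula A i k
    push_cast at h ⊢
    rw [h2, dvd_add_left (Dvd.dvd.mul_right (pow_dvd_pow _ (by norm_num)) _), sq,
      mul_dvd_mul_iff_right h0] at h
    exact (coprime_of_dvd A i dvd_rfl).pow_right.dvd_of_dvd_mul_right h
  refine Dvd.dvd.mul_left ?_ _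
  obtain ⟨j, rfl | rfl⟩ := k.eq_nat_or_neg
  · exact key j h
  · rw [mul_neg, ps_neg, dvd_neg] at h
    exact dvd_neg.2 (key j h)

theorem half_period (A m n k : ℤ) :
    ch A m ∣ ps A (n + 2 * m * k) - ps A n ∨ ch A m ∣ ps A (n + 2 * m * k) + ps A n := by
  have step : ∀ n, ch A m ∣ ps A (n + 2 * m) + ps A n := fun n =>
    ⟨2 * (ps A n * ch A m + ch A n * ps A m), by
      rw [two_mul m, ps_add, ch_add, ps_add]
      linear_combination (-ps A n) * pell A m⟩
  induction k using Int.induction_on with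
  | zero => simp
  | succ k ih =>
    have := step (n + 2 * m * k)
    rw [show n + 2 * m * (k + 1) = n + 2 * m * k + 2 * m by ring]
    rcases ih with g | g
    · right; exact dv (this.sub g) (by ring)
    · left; exact dv (this.sub g) (by ring)
  | pred k ih =>
    have := step (n + 2 * m * (-k - 1))
    rw [show n + 2 * m * (-k - 1) + 2 * m = n + 2 * m * -k by ring] at this
    rcases ih with g | g
    · right; exact dv (this.sub g) (by ring)
    · left; exact dv (this.sub g) (by ring)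

theorem step_down (hA : 3 ≤ A) {i m n : ℤ} (hm : m ≠ 0) (hi : |i| ≤ |m|)
    (h : ch A m ∣ ps A n - ps A i) : m ∣ n - i ∨ m ∣ n + i := by
  wlog hpos : 0 < m generalizing m
  · have := this (neg_ne_zero.2 hm) (by rwa [abs_neg]) (by rwa [ch_neg]) (by omega)
    simpa using this
  have hA1 : 1 ≤ A := by linarith
  rw [abs_of_pos hpos] at hi
  set r := (n + m) % (2 * m) - m with hr
  have h1 := Int.emod_nonneg (n + m) (show 2 * m ≠ 0 by omega)
  have h2 := Int.emod_lt_of_pos (n + m) (show 0 < 2 * m by omega)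
  have h3 : n = r + 2 * m * ((n + m) / (2 * m)) := by
    linarith [Int.emod_add_mul_ediv (n + m) (2 * m)]
  have big : 2 * ps A m < ch A m := by
    refine (le_abs_self _).trans_lt (abs_lt_of_sq_lt_sq ?_ (ch_pos hA1 m).le)
    nlinarith [pell A m, mul_nonneg (show 0 ≤ A ^ 2 - 5 by nlinarith) (sq_nonneg (ps A m))]
  have key : ∀ s, |s| ≤ m → ch A m ∣ ps A s - ps A i → s = i := fun s hs hd => by
    have g1 : |ps A s| ≤ ps A m := by rw [abs_ps hA1]; exact (ps_strictMono hA1).monotone hs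
    have g2 : |ps A i| ≤ ps A m := by rw [abs_ps hA1]; exact (ps_strictMono hA1).monotone hi
    have := Int.eq_zero_of_abs_lt_dvd hd (by linarith [abs_sub (ps A s) (ps A i)])
    exact (ps_strictMono hA1).injective (by linarith)
  have hr' : |r| ≤ m := abs_le.2 ⟨by omega, by omega⟩
  rcases half_period A m r ((n + m) / (2 * m)) with g | g <;> rw [← h3] at g
  · left
    have := key r hr' (dv (h.sub g) (by ring))
    exact ⟨2 * ((n + m) / (2 * m)), by linarith⟩
  · right
    have := key (-r) (by rwa [abs_neg]) (by rw [ps_neg]; exact dv (h.sub g) (by ring))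
    exact ⟨2 * ((n + m) / (2 * m)), by linarith⟩

theorem period (A m n j : ℤ) (hA : 1 ≤ A) :
    ch A m ^ 2 ∣ ps A (n + 4 * m * ch A m * j) - ps A n := by
  obtain ⟨k, hk⟩ := Int.eq_ofNat_of_zero_le (show 0 ≤ ch A m - 1 by linarith [ch_pos hA m])
  have hk' : ch A m = k + 1 := by linarith
  have a1 : ch A (2 * m) = 2 * ch A m ^ 2 - 1 := by
    rw [two_mul m, ch_add]; linear_combination -pell A m
  have a2 : ps A (2 * m) = 2 * ch A m * ps A m := by rw [two_mul m, ps_add]; ring
  have a3 : ch A m ^ 2 ∣ ch A (4 * m) - 1 := ⟨8 * ch A m ^ 2 - 8, by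
    have := pell A (2 * m)
    rw [show 4 * m = 2 * m + 2 * m by ring, ch_add]
    rw [a1] at this ⊢
    linear_combination -this⟩
  have a4 : ch A m ∣ ps A (4 * m) := by
    rw [show 4 * m = 2 * m + 2 * m by ring, ps_add, a2]
    exact ⟨4 * ps A m * ch A (2 * m), by ring⟩
  obtain ⟨e₁, e₂, h1, h2⟩ := mul_formula A (4 * m) k
  rw [← hk'] at h1 h2
  have b1 : ch A m ^ 2 ∣ ch A (4 * m * ch A m) - 1 := by
    rw [h1, add_sub_right_comm]
    refine Dvd.dvd.add (a3.trans ?_) ((pow_dvd_pow_of_dvd a4 2).mul_right _)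
    simpa using sub_dvd_pow_sub_pow (ch A (4 * m)) 1 (k + 1)
  have b2 : ch A m ^ 2 ∣ ps A (4 * m * ch A m) := by
    rw [h2]
    obtain ⟨e, he⟩ := a4
    rw [he]
    exact ⟨ch A (4 * m) ^ k * e + ch A m * e ^ 3 * e₂, by ring⟩
  have step : ∀ n, ch A m ^ 2 ∣ ps A (n + 4 * m * ch A m) - ps A n := fun n => by
    rw [ps_add]
    exact dv ((b1.mul_left (ps A n)).add (b2.mul_left (ch A n))) (by ring)
  induction j using Int.induction_on with
  | zero => simp
  | succ j ih =>
    refine dv ((step (n + 4 * m * ch A m * j)).add ih) ?_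
    rw [show n + 4 * m * ch A m * (j + 1) = n + 4 * m * ch A m * j + 4 * m * ch A m by ring]
    ring
  | pred j ih =>
    have := step (n + 4 * m * ch A m * (-j - 1))
    rw [show n + 4 * m * ch A m * (-j - 1) + 4 * m * ch A m = n + 4 * m * ch A m * -j by ring]
      at this
    exact dv (ih.sub this) (by ring)

theorem two_pow_congr (A : ℤ) (n : ℕ) : 4 * A - 5 ∣ 3 * 2 ^ n * ps A n - 2 * (4 ^ n - 1) := by
  have key : ∀ n : ℕ, (4 * A - 5 ∣ 3 * 2 ^ n * ps A n - 2 * (4 ^ n - 1)) ∧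
      4 * A - 5 ∣ 3 * 2 ^ (n + 1) * ps A (n + 1) - 2 * (4 ^ (n + 1) - 1) := by
    intro n
    induction n with
    | zero => simp [ps_zero, ps_one]
    | succ n ih =>
      refine ⟨by exact_mod_cast ih.2, ?_⟩
      have e : ps A (n + 1 + 1) = 2 * A * ps A (n + 1) - ps A n := by
        have h1 := ps_succ A (n + 1)
        have h2 := ps_pred A (n + 1)
        rw [add_sub_cancel_right] at h2
        linarith
      push_cast
      rw [e]
      exact dv (((ih.2.mul_left 5).sub (ih.1.mul_left 4)).add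
        (dvd_mul_right (4 * A - 5) (3 * 2 ^ (n + 1) * ps A (n + 1)))) (by ring)
  exact (key n).1

theorem lift_prime (A t p : ℤ) (hp : 0 < p) (i : ℕ) (h : p ^ (i + 1) ∣ ps A t) :
    p ^ (i + 2) ∣ ps A (t * p) := by
  obtain ⟨k, hk⟩ := Int.eq_ofNat_of_zero_le (show 0 ≤ p - 1 by linarith)
  have hk' : p = k + 1 := by linarith
  obtain ⟨-, e, -, h2⟩ := mul_formula A t k
  rw [← hk'] at h2
  obtain ⟨c, hc⟩ := h
  rw [h2, hc]
  exact ⟨ch A t ^ k * c + p ^ (2 * i + 1) * c ^ 3 * e, by ring⟩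

theorem pow_formula {K : Type} [CommRing K] (A : ℤ) (s : K) (hs : s ^ 2 = ((A ^ 2 - 1 : ℤ) : K))
    (u : ℤ) (k : ℕ) : ((ch A u : K) + ps A u * s) ^ k = ch A (u * k) + ps A (u * k) * s := by
  induction k with
  | zero => simp [ch_zero, ps_zero]
  | succ k ih =>
    rw [pow_succ, ih, Nat.cast_succ, mul_add u, mul_one, ch_add, ps_add]
    push_cast at hs ⊢
    linear_combination (ps A (u * k) : K) * ps A u * hs

theorem frob (A t : ℤ) (p : ℕ) (hp : p.Prime) :
    (p : ℤ) ∣ ps A (t * p) → (∀ s, (p : ℤ) ∣ ps A (s * p)) ∨ (p : ℤ) ∣ ps A t := by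
  intro h
  have := Fact.mk hp
  let K := AlgebraicClosure (ZMod p)
  obtain ⟨s, hs⟩ := IsAlgClosed.exists_pow_nat_eq (((A ^ 2 - 1 : ℤ) : K)) two_pos
  have cast : ∀ z : ℤ, (z : K) = 0 ↔ (p : ℤ) ∣ z := fun z => CharP.intCast_eq_zero_iff K p z
  have fr : ∀ u : ℤ, (ch A u : K) ^ p + (ps A u * s) ^ p = ch A (u * p) + ps A (u * p) * s ∧
      (ch A u : K) ^ p - (ps A u * s) ^ p = ch A (u * p) - ps A (u * p) * s := fun u => by
    have h1 := pow_formula A s hs u p
    have h2 := pow_formula A (-s) (by rw [neg_sq, hs]) u p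
    rw [add_pow_char] at h1
    rw [mul_neg, mul_neg, ← sub_eq_add_neg, ← sub_eq_add_neg, sub_pow_char] at h2
    exact ⟨h1, h2⟩
  by_cases h2 : (2 : K) * s = 0
  · left
    intro u
    rcases mul_eq_zero.1 h2 with g | g
    · have g2 : (p : ℤ) ∣ 2 := (cast 2).1 (by exact_mod_cast g)
      have g3 : p = 2 := (Nat.prime_dvd_prime_iff_eq hp Nat.prime_two).1 (by exact_mod_cast g2)
      subst g3
      rw [Nat.cast_two, mul_two, ps_add]
      exact ⟨ps A u * ch A u, by ring⟩
    · rw [g, zero_pow two_ne_zero, eq_comm, cast] at hs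
      have lin : ∀ k : ℕ, (p : ℤ) ∣ ch A (u * k) - ch A u ^ k ∧
          (p : ℤ) ∣ ps A (u * k) * ch A u - k * ch A u ^ k * ps A u := by
        intro k
        induction k with
        | zero => simp [ch_zero, ps_zero]
        | succ k ih =>
          rw [Nat.cast_succ, mul_add u, mul_one, ch_add, ps_add]
          constructor
          · exact dv ((ih.1.mul_right (ch A u)).add (hs.mul_right (ps A (u * k) * ps A u)))
              (by ring)
          · exact dv ((ih.2.mul_right (ch A u)).add (ih.1.mul_right (ps A u * ch A u))) (by ring)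
      have c1 : IsCoprime (p : ℤ) (ch A u) := by
        obtain ⟨e, he⟩ := hs
        exact ⟨-(e * ps A u ^ 2), ch A u, by
          have := pell A u
          rw [he] at this
          linear_combination this⟩
      refine c1.dvd_of_dvd_mul_right ?_
      have := (lin p).2.add ((dvd_mul_right (p : ℤ) (ch A u ^ p)).mul_right (ps A u))
      rwa [sub_add_cancel] at this
  · right
    have h3 := fr t
    rw [(cast _).2 h, zero_mul] at h3
    have h4 : (2 : K) * (ps A t * s) ^ p = 0 := by linear_combination h3.1 - h3.2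
    have h5 := (mul_eq_zero.1 h4).resolve_left (left_ne_zero_of_mul h2)
    exact (cast _).1 ((mul_eq_zero.1 (pow_eq_zero_iff hp.ne_zero |>.1 h5)).resolve_right
      (right_ne_zero_of_mul h2))

theorem pow_dvd_ps (A : ℤ) (p : ℕ) (hp : p.Prime) (k : ℕ) (t : ℤ)
    (h : (p : ℤ) ∣ ps A (t * p ^ k)) : (p : ℤ) ^ k ∣ ps A (t * p ^ k) := by
  have hp0 : (0 : ℤ) < p := by exact_mod_cast hp.pos
  have up : ∀ (s : ℤ) (j : ℕ), (p : ℤ) ∣ ps A s → (p : ℤ) ^ (j + 1) ∣ ps A (s * p ^ j) := by
    intro s j hs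
    induction j with
    | zero => simpa using hs
    | succ j ih => rw [pow_succ (p : ℤ) j, ← mul_assoc]; exact lift_prime A _ p hp0 j ih
  by_cases all : ∀ s, (p : ℤ) ∣ ps A (s * p)
  · rcases k with _ | k
    · simp
    · rw [pow_succ' (p : ℤ) k, ← mul_assoc, ← pow_succ']
      exact up _ k (all t)
  · have down : ∀ j : ℕ, (p : ℤ) ∣ ps A (t * p ^ j) → (p : ℤ) ∣ ps A t := by
      intro j
      induction j with
      | zero => simp
      | succ j ih =>
        intro hj
        rw [pow_succ, ← mul_assoc] at hj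
        exact ih ((frob A _ p hp hj).resolve_left all)
    exact (pow_dvd_pow _ (Nat.le_succ k)).trans (up t k (down k h))

/-- Every common divisor of the index and the square of the value divides the value. -/
theorem gcd_dvd_ps (A m : ℤ) : ((Int.gcd m (ps A m ^ 2) : ℕ) : ℤ) ∣ ps A m := by
  rw [Int.natCast_dvd, Nat.dvd_iff_prime_pow_dvd_dvd]
  intro p k hp h
  rw [← Int.natCast_dvd, Nat.cast_pow]
  rcases k with _ | k
  · simp
  have h' : (p : ℤ) ^ (k + 1) ∣ ((Int.gcd m (ps A m ^ 2) : ℕ) : ℤ) := by exact_mod_cast h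
  obtain ⟨t, ht⟩ := h'.trans (Int.gcd_dvd_left _ _)
  have h2 : (p : ℤ) ∣ ps A m := (Nat.prime_iff_prime_int.1 hp).dvd_of_dvd_pow
    ((dvd_pow_self _ (Nat.succ_ne_zero k)).trans (h'.trans (Int.gcd_dvd_right _ _)))
  rw [ht, mul_comm] at h2 ⊢
  exact pow_dvd_ps A p hp _ t h2

end Pool.Agent.MP_fed7c7_lc.H56
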