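import Mathlib
import Pool.Agent.MP_fed7c7_lc.H56.PF
import Pool.Agent.MP_fed7c7_lc.H56.Pell

set_option autoImplicit false

/-!
One equation in four unknowns `x y u z` which says that `Q` is a square, `S ∣ T`, `0 < R`,
`n ≠ 0` and `C = ± ps A B`.
-/

namespace Pool.Agent.MP_fed7c7_lc.H56

/-- The Pell form. -/
def pl (A y : ℤ) : ℤ := (A ^ 2 - 1) * y ^ 2 + 1

/-- A form which never vanishes when `S ≠ 0`. -/
def nz (S T y : ℤ) : ℤ :=
  (T ^ 2 + T * S + (2 * y + 1) * S ^ 2) * (T ^ 3 - T * S ^ 2 + (3 * y + 1) * S ^ 3)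

/-- The product of `r ± m √P ± m (1 + P ^ 2) √Q`. -/
def cmb (r m P Q : ℤ) : ℤ :=
  (r ^ 2 + m ^ 2 * (P - (1 + P ^ 2) ^ 2 * Q)) ^ 2 - 4 * r ^ 2 * m ^ 2 * P

def gG (A F : ℤ) : ℤ := 1 + (A - 1) * (F - 1) ^ 2

def hH (C B E F y : ℤ) : ℤ := C + (B - C) * (1 - (F - 1) ^ 2) + 4 * E * F * y

def jJ (R D u : ℤ) : ℤ := (4 * R - 2) * (2 * D * u) ^ 2 + 1

def eE (C D J u n x : ℤ) : ℤ := 2 * C ^ 2 * D * J * u * n * x

def st3 (A C B S T Q D J E F y z : ℤ) : ℤ :=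
  cmb (S ^ 5 * E * z - nz S T y) (S ^ 5 * E) (D * J * F * pl (gG A F) (hH C B E F y)) Q

def st2 (A C B S T Q D J E y z : ℤ) : ℤ := st3 A C B S T Q D J E (pl A E) y z

def st1 (A C B n S T Q D J x y u z : ℤ) : ℤ := st2 A C B S T Q D J (eE C D J u n x) y z

/-- The combined equation. -/
def fin (A C B R n S T Q x y u z : ℤ) : ℤ :=
  st1 A C B n S T Q (pl A C) (jJ R (pl A C) u) x y u z

section
variable {σ : Type} {A C B R n S T Q D J E F x y u z : (σ → ℤ) → ℤ}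

@[fun_prop]
theorem pf_pl (_ : PF A) (_ : PF y) : PF fun v => pl (A v) (y v) := by
  unfold pl; fun_prop

@[fun_prop]
theorem pf_cmb (_ : PF A) (_ : PF B) (_ : PF C) (_ : PF D) :
    PF fun v => cmb (A v) (B v) (C v) (D v) := by
  unfold cmb; fun_prop

@[fun_prop]
theorem pf_st3 (_ : PF A) (_ : PF C) (_ : PF B) (_ : PF S) (_ : PF T) (_ : PF Q) (_ : PF D)
    (_ : PF J) (_ : PF E) (_ : PF F) (_ : PF y) (_ : PF z) : PF fun v =>
    st3 (A v) (C v) (B v) (S v) (T v) (Q v) (D v) (J v) (E v) (F v) (y v) (z v) := by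
  unfold st3 nz gG hH; fun_prop

@[fun_prop]
theorem pf_st2 (_ : PF A) (_ : PF C) (_ : PF B) (_ : PF S) (_ : PF T) (_ : PF Q) (_ : PF D)
    (_ : PF J) (_ : PF E) (_ : PF y) (_ : PF z) : PF fun v =>
    st2 (A v) (C v) (B v) (S v) (T v) (Q v) (D v) (J v) (E v) (y v) (z v) := by
  unfold st2; fun_prop

@[fun_prop]
theorem pf_st1 (_ : PF A) (_ : PF C) (_ : PF B) (_ : PF n) (_ : PF S) (_ : PF T) (_ : PF Q)
    (_ : PF D) (_ : PF J) (_ : PF x) (_ : PF y) (_ : PF u) (_ : PF z) : PF fun v =>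
    st1 (A v) (C v) (B v) (n v) (S v) (T v) (Q v) (D v) (J v) (x v) (y v) (u v) (z v) := by
  unfold st1 eE; fun_prop

@[fun_prop]
theorem pf_fin (_ : PF A) (_ : PF C) (_ : PF B) (_ : PF R) (_ : PF n) (_ : PF S) (_ : PF T)
    (_ : PF Q) (_ : PF x) (_ : PF y) (_ : PF u) (_ : PF z) : PF fun v =>
    fin (A v) (C v) (B v) (R v) (n v) (S v) (T v) (Q v) (x v) (y v) (u v) (z v) := by
  unfold fin jJ; fun_prop

end

theorem isSquare_of_mul {a b c : ℤ} (hb : b ≠ 0) (h : b ^ 2 * a = c ^ 2) : IsSquare a := by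
  obtain ⟨e, rfl⟩ := (Int.pow_dvd_pow_iff two_ne_zero).1 ⟨a, h.symm⟩
  exact ⟨e, mul_left_cancel₀ (pow_ne_zero 2 hb) (by rw [h]; ring)⟩

theorem cmb_sound {r m P Q : ℤ} (h : cmb r m P Q = 0) :
    m ∣ r ∧ (m ≠ 0 → IsSquare P ∧ IsSquare Q) := by
  unfold cmb at h
  rcases eq_or_ne m 0 with rfl | hm
  · have : r ^ 4 = 0 := by linear_combination h
    simp [pow_eq_zero_iff (by norm_num : 4 ≠ 0) |>.1 this]
  have hc : 0 < 1 + P ^ 2 := by positivity
  rcases eq_or_ne r 0 with rfl | hr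
  · have h1 : (m ^ 2 * (P - (1 + P ^ 2) ^ 2 * Q)) ^ 2 = 0 := by linear_combination h
    have h2 := (mul_eq_zero.1 (pow_eq_zero_iff two_ne_zero |>.1 h1)).resolve_left (pow_ne_zero 2 hm)
    have h3 : P = 0 := Int.eq_zero_of_abs_lt_dvd (m := 1 + P ^ 2)
      ⟨(1 + P ^ 2) * Q, by linear_combination h2⟩ (by nlinarith [sq_abs P, abs_nonneg P])
    subst h3
    obtain rfl : Q = 0 := by linear_combination -h2
    simp
  · obtain ⟨s, rfl⟩ : IsSquare P := isSquare_of_mul (b := 2 * r * m) (by positivity)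
      (c := r ^ 2 + m ^ 2 * (P - (1 + P ^ 2) ^ 2 * Q)) (by linear_combination -h)
    set c := 1 + (s * s) ^ 2
    have h1 : ((r - m * s) ^ 2 - (m * c) ^ 2 * Q) * ((r - m * -s) ^ 2 - (m * c) ^ 2 * Q) = 0 := by
      linear_combination h
    have key : ∀ s, (r - m * s) ^ 2 - (m * c) ^ 2 * Q = 0 → m ∣ r ∧ IsSquare Q := fun s g =>
      ⟨by
        have : m ∣ r - m * s :=
          (Int.pow_dvd_pow_iff two_ne_zero).1 ⟨c ^ 2 * Q, by linear_combination g⟩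
        exact dv (this.add (dvd_mul_right m s)) (by ring),
      isSquare_of_mul (b := m * c) (by positivity) (c := r - m * s) (by linear_combination -g)⟩
    rcases mul_eq_zero.1 h1 with g | g <;> exact ⟨(key _ g).1, fun _ => ⟨⟨s, rfl⟩, (key _ g).2⟩⟩

theorem cmb_complete (m s t : ℤ) :
    cmb (m * (s + (1 + (s * s) ^ 2) * t)) m (s * s) (t * t) = 0 := by
  unfold cmb; ring

theorem nz_mul (S q y : ℤ) : nz S (S * q) y = S ^ 5 * nz 1 q y := by unfold nz; ring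

theorem nz_ne (q y : ℤ) : nz 1 q y ≠ 0 := by
  unfold nz
  refine mul_ne_zero ?_ ?_
  · obtain ⟨k, hk⟩ := Int.even_mul_succ_self q
    have : q ^ 2 + q * 1 + (2 * y + 1) * 1 ^ 2 = 2 * (k + y) + 1 := by linear_combination hk
    omega
  · obtain ⟨k, hk⟩ : (3 : ℤ) ∣ q ^ 3 - q := by
      have := Int.emod_emod_of_dvd
      rcases (by omega : q % 3 = 0 ∨ q % 3 = 1 ∨ q % 3 = 2) with h | h | h <;>
        exact Int.dvd_of_emod_eq_zero (by simp [pow_succ, Int.sub_emod, Int.mul_emod, h])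
    have : q ^ 3 - q * 1 ^ 2 + (3 * y + 1) * 1 ^ 3 = 3 * (k + y) + 1 := by linear_combination hk
    omega

theorem dvd_of_nz {S T y : ℤ} (h : S ^ 5 ∣ nz S T y) (hS : S ≠ 0) : S ∣ T := by
  obtain ⟨d, s, t, hd, hc, rfl, rfl⟩ := Int.exists_gcd_one' (Int.gcd_pos_of_ne_zero_left T hS)
  have e : nz (s * d) (t * d) y = nz s t y * d ^ 5 := by unfold nz; ring
  rw [e, mul_pow, mul_dvd_mul_iff_right (by positivity)] at h
  have h1 : s ∣ t ^ 5 := by
    have h2 : s ∣ nz s t y := (dvd_pow_self s (by norm_num)).trans h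
    exact dv (h2.sub (dvd_mul_right s ((t + (2 * y + 1) * s) *
      (t ^ 3 - t * s ^ 2 + (3 * y + 1) * s ^ 3) + t ^ 2 * ((3 * y + 1) * s ^ 2 - t * s))))
      (by unfold nz; ring)
  have h3 : IsCoprime s (t ^ 5) := (Int.isCoprime_iff_gcd_eq_one.2 hc).pow_right
  exact mul_dvd_mul_right (h3.isUnit_of_dvd h1).dvd _

theorem exists_nz (q E : ℤ) (hE : E ≠ 0) : ∃ y, E ∣ nz 1 q y := by
  obtain ⟨k, e, he, h⟩ := Nat.exists_eq_two_pow_mul_odd (Int.natAbs_ne_zero.2 hE)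
  obtain ⟨j, rfl⟩ := he
  have c1 : IsCoprime ((2 : ℤ) ^ k) (2 * j + 1) := (IsCoprime.pow_left ⟨-j, 1, by ring⟩)
  have c2 : IsCoprime ((2 : ℤ) ^ k) 3 := (IsCoprime.pow_left ⟨-1, 1, by ring⟩)
  obtain ⟨a, b, h1⟩ := c1
  obtain ⟨c, d, h2⟩ := c2
  refine ⟨j * (q ^ 2 + q + 1) * (a * 2 ^ k) - d * (q ^ 3 - q + 1) * (b * (2 * j + 1)), ?_⟩
  rw [← Int.natAbs_dvd, h, mul_comm]
  push_cast
  refine mul_dvd_mul ⟨(q ^ 2 + q + 1) * (1 - 2 * j * b) - 2 * d * (q ^ 3 - q + 1) * b, ?_⟩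
    ⟨3 * j * (q ^ 2 + q + 1) * a + (q ^ 3 - q + 1) * (c + 3 * d * a), ?_⟩
  · linear_combination 2 * j * (q ^ 2 + q + 1) * h1
  · linear_combination (-3 * d * (q ^ 3 - q + 1)) * h1 - (q ^ 3 - q + 1) * h2

theorem cop {a b : ℤ} (h : a ∣ b - 1) : IsCoprime a b := by
  obtain ⟨c, hc⟩ := h
  exact ⟨-c, 1, by linear_combination hc⟩

theorem sq_or {a b : ℤ} (h : IsCoprime a b) (g : IsSquare (a * b)) (ha : 0 < a) :
    ∃ c, c ^ 2 = a := by
  obtain ⟨s, hs⟩ := g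
  obtain ⟨c, hc | hc⟩ := Int.sq_of_isCoprime h (hs.trans (sq s).symm)
  · exact ⟨c, hc.symm⟩
  · nlinarith [sq_nonneg c]

theorem pl_pos {A : ℤ} (hA : 1 ≤ A) (y : ℤ) : 0 < pl A y := by
  have : 0 ≤ A ^ 2 - 1 := by nlinarith
  unfold pl; positivity

theorem fin_sound {A C B R n S T Q x y u z : ℤ} (hS : S ≠ 0)
    (h : fin A C B R n S T Q x y u z = 0) : IsSquare Q ∧ S ∣ T ∧ 0 < R ∧ n ≠ 0 ∧
      (3 ≤ A → 2 * |B| + 1 < |C| → C = ps A B ∨ C = -ps A B) := by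
  unfold fin st1 st2 st3 at h
  set D := pl A C with hD
  set J := jJ R D u with hJ
  set E := eE C D J u n x with hE
  set F := pl A E with hF
  set G := gG A F with hG
  set H := hH C B E F y with hH'
  obtain ⟨h1, h2⟩ := cmb_sound h
  have h3 : S ^ 5 * E ∣ nz S T y := dv ((dvd_mul_right _ z).sub h1) (by ring)
  obtain ⟨q, rfl⟩ := dvd_of_nz ((dvd_mul_right _ E).trans h3) hS
  have hE0 : E ≠ 0 := by
    intro g
    rw [g, mul_zero, zero_dvd_iff, nz_mul] at h3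
    exact mul_ne_zero (pow_ne_zero 5 hS) (nz_ne q y) h3
  obtain ⟨hP, hQ⟩ := h2 (mul_ne_zero (pow_ne_zero 5 hS) hE0)
  have dF : E ∣ F - 1 := ⟨(A ^ 2 - 1) * E, by rw [hF, pl]; ring⟩
  have dG : E ∣ G - 1 := dv (dF.mul_left ((A - 1) * (F - 1))) (by rw [hG, gG]; ring)
  have dI : E ∣ pl G H - 1 := dv (dG.mul_left ((G + 1) * H ^ 2)) (by rw [pl]; ring)
  have dD : D ∣ E := ⟨2 * C ^ 2 * J * u * n * x, by rw [hE, eE]; ring⟩
  have dJ : J ∣ E := ⟨2 * C ^ 2 * D * u * n * x, by rw [hE, eE]; ring⟩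
  have dC : C ^ 2 ∣ E := ⟨2 * D * J * u * n * x, by rw [hE, eE]; ring⟩
  have fG : F ∣ G - A := ⟨(A - 1) * (F - 2), by rw [hG, gG]; ring⟩
  have fH : F ∣ H - C := ⟨(B - C) * (2 - F) + 4 * E * y, by rw [hH', hH]; ring⟩
  have eH : E ∣ H - B := dv ((dF.mul_left ((C - B) * (F - 1))).add (dvd_mul_right E (4 * F * y)))
    (by rw [hH', hH]; ring)
  have cDJ : IsCoprime D J := cop ⟨(4 * R - 2) * 4 * D * u ^ 2, by rw [hJ, jJ]; ring⟩
  have cDF : IsCoprime D F := cop (dD.trans dF)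
  have cDI : IsCoprime D (pl G H) := cop (dD.trans dI)
  have cJF : IsCoprime J F := cop (dJ.trans dF)
  have cJI : IsCoprime J (pl G H) := cop (dJ.trans dI)
  have cFI : IsCoprime F (pl G H) := by
    obtain ⟨e, he⟩ : F ∣ pl G H - D := dv ((fG.mul_left ((G + A) * H ^ 2)).add
      (fH.mul_left ((A ^ 2 - 1) * (H + C)))) (by rw [hD, pl, pl]; ring)
    rw [show pl G H = D + F * e by linarith]
    exact cDF.symm.add_mul_left_right e
  have hDu : D * u ≠ 0 ∧ n ≠ 0 := by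
    have : E = D * u * (n * (2 * C ^ 2 * J * x)) := by rw [hE, eE]; ring
    rw [this] at hE0
    exact ⟨left_ne_zero_of_mul hE0, left_ne_zero_of_mul (right_ne_zero_of_mul hE0)⟩
  have hR : 0 < R := by
    obtain ⟨s, hs⟩ := hP
    have e : J = 4 * ((4 * R - 2) * (D * u) ^ 2) + 1 := by rw [hJ, jJ]; ring
    obtain ⟨c, hc | hc⟩ := Int.sq_of_isCoprime ((cDJ.symm.mul_right cJF).mul_right cJI)
      (c := s) (by linear_combination hs)
    · by_contra g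
      have := sq_pos_of_ne_zero hDu.1
      nlinarith [sq_nonneg c]
    · rcases Int.even_or_odd' c with ⟨k, rfl | rfl⟩
      · have : J = 4 * (-k ^ 2) := by rw [hc]; ring
        omega
      · have : J = 4 * (-k ^ 2 - k - 1) + 3 := by rw [hc]; ring
        omega
  refine ⟨hQ, dvd_mul_right _ _, hR, hDu.2, fun hA hC => ?_⟩
  have hA1 : 1 ≤ A := by linarith
  have hG2 : 2 ≤ G := by
    have h4 : F - 1 ≠ 0 := by
      rw [hF, pl, add_sub_cancel_right]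
      exact mul_ne_zero (by nlinarith) (pow_ne_zero 2 hE0)
    have := sq_pos_of_ne_zero h4
    rw [hG, gG]; nlinarith
  obtain ⟨d, hd⟩ := sq_or ((cDJ.mul_right cDF).mul_right cDI) (by rwa [← mul_assoc, ← mul_assoc])
    (pl_pos hA1 C)
  obtain ⟨f, hf⟩ := sq_or ((cDF.symm.mul_right cJF.symm).mul_right cFI)
    (by rwa [← mul_assoc, mul_comm F]) (pl_pos hA1 E)
  obtain ⟨e, he⟩ := sq_or ((cDI.symm.mul_right cJI.symm).mul_right cFI.symm)
    (by rwa [mul_comm]) (pl_pos (by linarith) H)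
  obtain ⟨i, hi⟩ := exists_index (by linarith) (hd.trans hD)
  obtain ⟨m, hm⟩ := exists_index (by linarith) (hf.trans hF)
  obtain ⟨k, hk⟩ := exists_index hG2 he
  have hm0 : m ≠ 0 := by
    rintro rfl
    exact hE0 (hm.trans (ps_zero A))
  have dm : C ∣ m := by
    rw [hi] at dC ⊢
    exact dvd_of_sq_dvd hA1 (hm ▸ dC)
  have hi2 := index_le (A := A) (by linarith) i
  rw [← hi] at hi2
  have cF : ch A m ∣ F := ⟨ch A m, by rw [hF, pl, hm, ← pell]; ring⟩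
  have dCE : C ∣ E := (dvd_pow_self C two_ne_zero).trans dC
  have h5 : C ∣ k - B := dv ((dCE.trans eH).sub ((dCE.trans dG).trans (ps_index G k)))
    (by rw [hk]; ring)
  have h6 := step_down hA hm0 (i := i) (n := k)
    (by linarith [Int.le_of_dvd (abs_pos.2 hm0) ((abs_dvd_abs _ _).2 dm), abs_nonneg B])
    (cF.trans (dv (fH.sub (fG.trans (ps_dvd_sub A G k))) (by rw [hk, ← hi]; ring)))
  rcases h6 with g | g
  · left
    have := Int.eq_zero_of_abs_lt_dvd ((abs_dvd _ _).2 (h5.sub (dm.trans g)))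
      (by rw [show k - B - (k - i) = i - B by ring]; linarith [abs_sub i B])
    rw [hi, show i = B by linarith]
  · right
    have := Int.eq_zero_of_abs_lt_dvd ((abs_dvd _ _).2 ((dm.trans g).sub h5))
      (by rw [show k + i - (k - B) = i + B by ring]; linarith [abs_add_le i B])
    rw [hi, show i = -B by linarith, ps_neg]

theorem exists_pell {d N : ℤ} (hd : 0 < d) (h : ¬IsSquare d) (hN : N ≠ 0) :
    ∃ x s, x ≠ 0 ∧ s ^ 2 = d * (N * x) ^ 2 + 1 := by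
  obtain ⟨s, x, h1, h2⟩ := Pell.exists_of_not_isSquare (d := N ^ 2 * d) (by positivity)
    fun ⟨c, hc⟩ => h (isSquare_of_mul hN (hc.trans (sq c).symm))
  exact ⟨x, s, h2, by linear_combination h1⟩

theorem fin_complete {A B R n S T Q : ℤ} (hA : 2 ≤ A) (hB : B ≠ 0) (hR : 0 < R) (hn : n ≠ 0)
    (hS : S ∣ T) (hQ : IsSquare Q) : ∃ x y u z, fin A (ps A B) B R n S T Q x y u z = 0 := by
  have hA1 : 1 ≤ A := by linarith
  obtain ⟨q, rfl⟩ := hS
  obtain ⟨t, rfl⟩ := hQ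
  set C := ps A B with hC
  have hC0 : C ≠ 0 := fun g => hB (ps_eq_zero hA1 g)
  set D := pl A C with hD
  have hD0 : 0 < D := pl_pos hA1 C
  obtain ⟨u, j, hu, hj⟩ := exists_pell (d := 4 * R - 2) (N := 2 * D) (by linarith) (by
    rintro ⟨c, hc⟩
    rcases Int.even_or_odd' c with ⟨k, rfl | rfl⟩
    · have : 4 * R - 2 = 4 * k ^ 2 := by rw [hc]; ring
      omega
    · have : 4 * R - 2 = 4 * (k ^ 2 + k) + 1 := by rw [hc]; ring
      omega) (by positivity)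
  set J := jJ R D u with hJ
  have hJ0 : 0 < J := by
    have : 0 < 4 * R - 2 := by linarith
    rw [hJ, jJ]; positivity
  obtain ⟨x, f, hx, hf⟩ := exists_pell (d := A ^ 2 - 1) (N := 2 * C ^ 2 * D * J * u * n)
    (by nlinarith) (by
      rintro ⟨c, hc⟩
      have h1 : |c| < A := abs_lt_of_sq_lt_sq (by nlinarith) (by linarith)
      nlinarith [sq_abs c, abs_nonneg c]) (by positivity)
  set E := eE C D J u n x with hE
  have hE0 : E ≠ 0 := by rw [hE, eE]; positivity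
  obtain ⟨m, hm⟩ := exists_index hA (hf.trans (rfl : pl A E = _))
  set F := pl A E with hF
  have eF : F = ch A m ^ 2 := by rw [hF, pl, hm, ← pell]
  obtain ⟨y0, hy⟩ := exists_nz q E hE0
  obtain ⟨g, hg⟩ := gcd_dvd_ps A m
  rw [← hm, Int.gcd_eq_gcd_ab] at hg
  set a := Int.gcdA m (E ^ 2)
  set b := Int.gcdB m (E ^ 2)
  set G := gG A F with hG
  set k := B + 4 * m * ch A m * (a * g * ch A m * y0) with hk
  obtain ⟨E', hE'⟩ : 2 ∣ E := ⟨C ^ 2 * D * J * u * n * x, by rw [hE, eE]; ring⟩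
  have d1 : 4 * E ^ 2 ∣ (F - 1) ^ 2 :=
    ⟨(A ^ 2 - 1) ^ 2 * E' ^ 2, by rw [hF, pl]; nth_rw 2 [hE']; nth_rw 1 [hE']; ring⟩
  have d2 : 4 * E ^ 2 ∣ ps G k - hH C B E F y0 := by
    have h1 : 4 * E ^ 2 ∣ ps G k - k :=
      (dv (d1.mul_left (A - 1)) (by rw [hG, gG]; ring)).trans (ps_index G k)
    refine dv ((h1.add (d1.mul_left (B - C))).sub (dvd_mul_right _ (b * g * F * y0))) ?_
    rw [hk, hH]
    linear_combination (-4 * F * y0) * hg - 4 * m * a * g * y0 * eF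
  have d3 : F ∣ ps G k - hH C B E F y0 := by
    have h1 : F ∣ ps G k - ps A k :=
      Dvd.dvd.trans ⟨(A - 1) * (F - 2), by rw [hG, gG]; ring⟩ (ps_dvd_sub A G k)
    have h2 : F ∣ ps A k - C := eF ▸ period A m B _ hA1
    exact dv ((h1.add h2).sub (dvd_mul_right F ((B - C) * (2 - F) + 4 * E * y0)))
      (by rw [hH]; ring)
  have c1 : IsCoprime (4 * E ^ 2) F := by
    have h1 : IsCoprime E F := cop ⟨(A ^ 2 - 1) * E, by rw [hF, pl]; ring⟩
    have h2 : IsCoprime 2 F := h1.of_isCoprime_of_dvd_left ⟨E', hE'⟩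
    exact dv dvd_rfl (by ring) |> ((h2.mul_left h1).pow_left (m := 2)).of_isCoprime_of_dvd_left
  obtain ⟨e, he⟩ := c1.mul_dvd d2 d3
  have eH : hH C B E F (y0 + E * e) = ps G k := by
    rw [hH] at he ⊢
    linear_combination -he
  obtain ⟨r, hr⟩ : E ∣ nz 1 q (y0 + E * e) := dv (hy.add (dvd_mul_right E
    (e * (2 * (q ^ 3 - q + 3 * y0 + 1) + 3 * (q ^ 2 + q + 2 * y0 + 1) + 6 * E * e))))
    (by unfold nz; ring)
  set s := ch A B * j * f * ch G k
  refine ⟨x, y0 + E * e, u, r + (s + (1 + (s * s) ^ 2) * t), ?_⟩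
  have eP : D * J * F * pl G (ps G k) = s * s := by
    rw [pl, ← pell, show F = f ^ 2 from hf.symm, show J = j ^ 2 from hj.symm,
      show D = ch A B ^ 2 from (pell A B).symm]
    ring
  unfold fin st1 st2 st3
  rw [← hD, ← hJ, ← hE, ← hF, ← hG, eH, eP, nz_mul, hr, ← cmb_complete (S ^ 5 * E) s t]
  congr 1
  ring

end Pool.Agent.MP_fed7c7_lc.H56
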