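import Mathlib

set_option autoImplicit false

/-!
Binary digit sums, bit masks and the power of two dividing a central binomial coefficient.
-/

namespace Pool.Agent.MP_fed7c7_lc.H56

open Finset

/-- The binary digit sum. -/
def s2 (n : ℕ) : ℕ := (Nat.digits 2 n).sum

theorem s2_zero : s2 0 = 0 := by simp [s2]

theorem s2_rec (n : ℕ) : s2 n = n % 2 + s2 (n / 2) := by
  rcases n.eq_zero_or_pos with rfl | h
  · simp [s2]
  · rw [s2, Nat.digits_def' one_lt_two h, List.sum_cons, s2]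

theorem and_split (n a b : ℕ) :
    a &&& b = 0 ↔ a % 2 ^ n &&& b % 2 ^ n = 0 ∧ a / 2 ^ n &&& b / 2 ^ n = 0 := by
  rw [← Nat.and_mod_two_pow, ← Nat.and_div_two_pow]
  constructor
  · intro h
    simp [h]
  · rintro ⟨h1, h2⟩
    rw [← Nat.mod_add_div (a &&& b) (2 ^ n), h1, h2, mul_zero, add_zero]

theorem and_block {n a b : ℕ} (x : ℕ) (h : a < 2 ^ n) :
    x &&& (a + 2 ^ n * b) = 0 ↔ x % 2 ^ n &&& a = 0 ∧ x / 2 ^ n &&& b = 0 := by
  rw [and_split n, Nat.add_mul_mod_self_left, Nat.mod_eq_of_lt h,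
    Nat.add_mul_div_left _ _ (by positivity), Nat.div_eq_of_lt h, zero_add]

theorem s2_succ_le (x : ℕ) : s2 (x + 1) ≤ s2 x + 1 := by
  induction x using Nat.strong_induction_on with
  | _ x ih =>
    rw [s2_rec (x + 1), s2_rec x]
    rcases Nat.mod_two_eq_zero_or_one x with h | h
    · rw [show (x + 1) / 2 = x / 2 by omega]; omega
    · have := ih (x / 2) (by omega)
      rw [show (x + 1) / 2 = x / 2 + 1 by omega]; omega

theorem s2_add (x y : ℕ) :
    s2 (x + y) ≤ s2 x + s2 y ∧ (s2 x + s2 y ≤ s2 (x + y) ↔ x &&& y = 0) := by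
  induction x using Nat.strong_induction_on generalizing y with
  | _ x ih =>
    rcases x.eq_zero_or_pos with rfl | h0
    · simp [s2_zero]
    obtain ⟨h1, h2⟩ := ih (x / 2) (by omega) (y / 2)
    have h3 := s2_succ_le (x / 2 + y / 2)
    rw [s2_rec (x + y), s2_rec x, s2_rec y, and_split 1, pow_one, ← h2]
    rcases Nat.mod_two_eq_zero_or_one x with h | h <;>
      rcases Nat.mod_two_eq_zero_or_one y with g | g <;> rw [h, g]
    · rw [show (x + y) / 2 = x / 2 + y / 2 by omega]; simp; omega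
    · rw [show (x + y) / 2 = x / 2 + y / 2 by omega]; simp; omega
    · rw [show (x + y) / 2 = x / 2 + y / 2 by omega]; simp; omega
    · rw [show (x + y) / 2 = x / 2 + y / 2 + 1 by omega]; simp; omega

theorem s2_block (t : ℕ) : ∀ x y : ℕ, x < 2 ^ t → s2 (x + 2 ^ t * y) = s2 x + s2 y := by
  induction t with
  | zero =>
    intro x y h
    obtain rfl : x = 0 := by omega
    simp [s2_zero]
  | succ t ih =>
    intro x y h
    rw [pow_succ] at h
    rw [s2_rec (x + _), s2_rec x, pow_succ, mul_right_comm,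
      show (x + 2 ^ t * y * 2) / 2 = x / 2 + 2 ^ t * y by omega, ih _ _ (by omega)]
    omega

theorem s2_compl (t : ℕ) : ∀ x y : ℕ, x + y + 1 = 2 ^ t → s2 x + s2 y = t := by
  induction t with
  | zero =>
    intro x y h
    obtain rfl : x = 0 := by omega
    obtain rfl : y = 0 := by omega
    simp [s2_zero]
  | succ t ih =>
    intro x y h
    rw [pow_succ] at h
    have := ih (x / 2) (y / 2) (by omega)
    rw [s2_rec x, s2_rec y]
    omega

theorem dvd_central (X k : ℕ) : 2 ^ k ∣ X.centralBinom ↔ k ≤ s2 X := by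
  have h := sub_one_mul_padicValNat_choose_eq_sub_sum_digits' (p := 2) (k := X) (n := X)
  have e : s2 (X + X) = s2 X := by
    rw [s2_rec, show (X + X) / 2 = X by omega]; omega
  change _ = s2 X + s2 X - s2 (X + X) at h
  rw [padicValNat_dvd_iff_le X.centralBinom_ne_zero, Nat.centralBinom, two_mul]
  omega

/-- Disjointness of bit patterns as a divisibility of a central binomial coefficient. -/
theorem kummer {t S T S' T' : ℕ} (hS : S + S' + 1 = 2 ^ t) (hT : T + T' + 1 = 2 ^ t) :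
    (2 ^ t) ^ 2 ∣ (S' + 2 ^ t * (T' + 2 ^ t * (S + T))).centralBinom ↔ S &&& T = 0 := by
  rw [← pow_mul, dvd_central, s2_block _ _ _ (by omega), s2_block _ _ _ (by omega),
    ← (s2_add S T).2]
  have := s2_compl t _ _ hS
  have := s2_compl t _ _ hT
  omega

theorem and_low {x j m : ℕ} (h : m + 1 = 2 ^ j) : x &&& m = 0 ↔ 2 ^ j ∣ x := by
  rw [show m = 2 ^ j - 1 by omega, Nat.and_two_pow_sub_one_eq_mod, Nat.dvd_iff_mod_eq_zero]

theorem and_high {x j s m : ℕ} (hs : s ≤ j) (h : m + 2 ^ s = 2 ^ j) :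
    x &&& m = 0 ↔ x % 2 ^ j < 2 ^ s := by
  obtain ⟨d, rfl⟩ := Nat.exists_eq_add_of_le hs
  have h0 : 0 < 2 ^ s := by positivity
  have h1 : 0 < 2 ^ d := by positivity
  have e : m = 0 + 2 ^ s * (2 ^ d - 1) := by
    rw [Nat.mul_sub, ← pow_add]; omega
  rw [e, and_block _ h0, Nat.and_zero, and_low (m := 2 ^ d - 1) (j := d) (by omega), pow_add,
    Nat.mod_mul, Nat.dvd_iff_mod_eq_zero]
  have h2 := Nat.mod_lt x h0
  constructor
  · rintro ⟨-, g⟩
    rw [g]; omega
  · intro g
    refine ⟨rfl, ?_⟩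
    by_contra hc
    have := Nat.mul_le_mul_left (2 ^ s) (Nat.pos_of_ne_zero hc)
    omega

/-- Separation of one digit in a sum with small coefficients. -/
theorem split_sum {J : Type} (s : Finset J) (v : J → ℤ) (p : J → ℕ) {B : ℤ} (hB : 1 ≤ B) (N : ℕ) :
    ∃ lo hi : ℤ, ∑ j ∈ s, v j * B ^ p j =
      lo + (∑ j ∈ s with p j = N, v j) * B ^ N + B ^ (N + 1) * hi ∧
      B * |lo| ≤ (∑ j ∈ s, |v j|) * B ^ N := by
  classical
  induction s using Finset.induction_on with
  | empty => exact ⟨0, 0, by simp, by simp⟩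
  | insert a s ha ih =>
    obtain ⟨lo, hi, h1, h2⟩ := ih
    have h0 : 0 ≤ |v a| * B ^ N := by positivity
    rw [sum_insert ha, sum_insert ha, filter_insert, h1]
    rcases lt_trichotomy (p a) N with h | h | h
    · refine ⟨lo + v a * B ^ p a, hi, by rw [if_neg h.ne]; ring, ?_⟩
      have h3 : B ^ (p a + 1) ≤ B ^ N := pow_le_pow_right₀ hB h
      have h4 := abs_add_le lo (v a * B ^ p a)
      rw [abs_mul, abs_of_nonneg (by positivity : 0 ≤ B ^ p a)] at h4
      rw [pow_succ] at h3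
      nlinarith [abs_nonneg (v a)]
    · refine ⟨lo, hi, ?_, by linarith⟩
      rw [if_pos h, sum_insert (by simp [ha]), h]
      ring
    · obtain ⟨d, hd⟩ := Nat.exists_eq_add_of_lt h
      refine ⟨lo, hi + v a * B ^ d, ?_, by linarith⟩
      rw [if_neg h.ne', hd]
      ring

end Pool.Agent.MP_fed7c7_lc.H56
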