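import Mathlib
import Pool.Agent.MP_fed7c7_lc.H56.Comb
import Pool.Agent.MP_fed7c7_lc.H56.Bits

set_option autoImplicit false

/-!
One equation in eight unknowns which says that `p ^ 2 < q ^ 2`, `f ∣ 2 ^ X` and `Y` divides the
central binomial coefficient of `X`.
-/

namespace Pool.Agent.MP_fed7c7_lc.H56

open Finset

def c3 (X f p q C l w W L A M K x y u z : ℤ) : ℤ :=
  fin A C (2 * X + 1) (q ^ 2 * K ^ 2 - p ^ 2 * K ^ 2 - 4 * (C - K * L) ^ 2 * q ^ 2) (l * w * f)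
    (4 * A - 5) (3 * W * C - 2 * (W ^ 2 - 1)) (pl M K) x y u z

def c2 (X f p q C k l w W V L U x y u z : ℤ) : ℤ :=
  c3 X f p q C l w W L (U * (V + 1)) (2 * U ^ 2 * V) (X + 1 + k * (2 * U ^ 2 * V - 1)) x y u z

/-- The equation in the unknowns `C k l w x y u z`. -/
def core (X Y f p q C k l w x y u z : ℤ) : ℤ :=
  c2 X f p q C k l w (2 * (f * w) ^ 2) (4 * (2 * (f * w) ^ 2) * Y) (l * Y) (64 * X * (l * Y) ^ 2)
    x y u z

section
variable {σ : Type} {X Y f p q C k l w W V L U A M K x y u z : (σ → ℤ) → ℤ}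

@[fun_prop]
theorem pf_c3 (_ : PF X) (_ : PF f) (_ : PF p) (_ : PF q) (_ : PF C) (_ : PF l) (_ : PF w)
    (_ : PF W) (_ : PF L) (_ : PF A) (_ : PF M) (_ : PF K) (_ : PF x) (_ : PF y) (_ : PF u)
    (_ : PF z) : PF fun v => c3 (X v) (f v) (p v) (q v) (C v) (l v) (w v) (W v) (L v) (A v) (M v)
      (K v) (x v) (y v) (u v) (z v) := by
  unfold c3; fun_prop

@[fun_prop]
theorem pf_c2 (_ : PF X) (_ : PF f) (_ : PF p) (_ : PF q) (_ : PF C) (_ : PF k) (_ : PF l)
    (_ : PF w) (_ : PF W) (_ : PF V) (_ : PF L) (_ : PF U) (_ : PF x) (_ : PF y) (_ : PF u)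
    (_ : PF z) : PF fun v => c2 (X v) (f v) (p v) (q v) (C v) (k v) (l v) (w v) (W v) (V v) (L v)
      (U v) (x v) (y v) (u v) (z v) := by
  unfold c2; fun_prop

@[fun_prop]
theorem pf_core (_ : PF X) (_ : PF Y) (_ : PF f) (_ : PF p) (_ : PF q) (_ : PF C) (_ : PF k)
    (_ : PF l) (_ : PF w) (_ : PF x) (_ : PF y) (_ : PF u) (_ : PF z) : PF fun v =>
    core (X v) (Y v) (f v) (p v) (q v) (C v) (k v) (l v) (w v) (x v) (y v) (u v) (z v) := by
  unfold core; fun_prop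

end

theorem bern {a e : ℝ} (ha : 1 ≤ a) (n : ℕ) (h : n ≤ e * a) : a ^ n * (1 - e) ≤ (a - 1) ^ n := by
  have h0 : 0 < a := by linarith
  have h1 : a⁻¹ ≤ 1 := inv_le_one_of_one_le₀ ha
  have h2 := one_add_mul_le_pow (a := -a⁻¹) (by linarith) n
  have h3 : n * a⁻¹ ≤ e := by rwa [← div_eq_mul_inv, div_le_iff₀ h0]
  rw [show a - 1 = a * (1 + -a⁻¹) by field_simp; ring, mul_pow]
  exact mul_le_mul_of_nonneg_left (by linarith) (by positivity)

theorem est {X : ℕ} {U V L : ℤ} (hX : 1 ≤ X) (hV : 1 ≤ V) (hL : L ≠ 0) (hU : U = 64 * X * L ^ 2) :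
    ((V : ℝ) + 1) ^ (2 * X) / V ^ X ≤
        2 * (ps (U * (V + 1)) (2 * X + 1) / ps (2 * U ^ 2 * V) (X + 1)) ∧
      (((V : ℝ) + 1) ^ (2 * X) / V ^ X ≤ 3 * |(L : ℝ)| →
        |(ps (U * (V + 1)) (2 * X + 1) / ps (2 * U ^ 2 * V) (X + 1) : ℝ) -
          ((V : ℝ) + 1) ^ (2 * X) / V ^ X| ≤ 1 / 8) := by
  have hU1 : 1 ≤ U := by
    have : 0 < U := by rw [hU]; positivity
    omega
  have a1 := ps_bounds (A := U * (V + 1)) (by nlinarith) (2 * X)
  have a2 := ps_bounds (A := 2 * U ^ 2 * V) (by nlinarith) X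
  push_cast at a1
  generalize ps (U * (V + 1)) (2 * X + 1) = c at *
  generalize ps (2 * U ^ 2 * V) (X + 1) = K at *
  obtain ⟨c1, c2⟩ := a1
  obtain ⟨k1, k2⟩ := a2
  have l1 : 1 ≤ |L| := Int.one_le_abs hL
  rw [← sq_abs L] at hU
  rify at c1 c2 k1 k2 hU hU1 hV l1 hX
  generalize |(L : ℝ)| = l at *
  generalize (U : ℝ) = U at *
  generalize (V : ℝ) = V at *
  generalize (c : ℝ) = c at *
  generalize (K : ℝ) = K at *
  set ρ := (V + 1) ^ (2 * X) / V ^ X with hρ
  have ρ0 : 0 < ρ := by positivity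
  have e0 : (2 * (U * (V + 1))) ^ (2 * X) = ρ * (2 * (2 * U ^ 2 * V)) ^ X := by
    rw [hρ, show 2 * (2 * U ^ 2 * V) = (2 * U) ^ 2 * V by ring, mul_pow _ V, ← pow_mul,
      ← mul_assoc 2 U, mul_pow (2 * U)]
    field_simp
  set e := 1 / (64 * l ^ 2) with he
  have e1 : e * U = X := by rw [he, hU]; field_simp
  have e2 : 0 < e := by positivity
  have e3 : 64 * l * e ≤ 1 := by
    rw [he, ← mul_div_assoc, div_le_one (by positivity)]; nlinarith
  have e4 : 64 * e ≤ 1 := by nlinarith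
  have b1 := bern (a := 2 * (U * (V + 1))) (e := e) (by nlinarith) (2 * X) (by
    push_cast; nlinarith)
  have b2 := bern (a := 2 * (2 * U ^ 2 * V)) (e := e) (by nlinarith) X (by
    have : e * (2 * (2 * U ^ 2 * V)) = X * (4 * (U * V)) := by rw [← e1]; ring
    rw [this]; nlinarith [mul_le_mul hU1 hV zero_le_one (by linarith)])
  rw [e0] at b1 c2
  have m0 : 0 < (2 * (2 * U ^ 2 * V)) ^ X := by positivity
  generalize (2 * (2 * U ^ 2 * V)) ^ X = m at *
  have K0 : 0 < K := by nlinarith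
  have t1 : ρ * (1 - e) ≤ c / K := by
    rw [le_div_iff₀ K0]
    nlinarith [mul_le_mul_of_nonneg_left k2 (show 0 ≤ ρ * (1 - e) by nlinarith)]
  have t2 : c / K * (1 - e) ≤ ρ := by
    rw [div_mul_eq_mul_div, div_le_iff₀ K0]
    nlinarith [mul_le_mul_of_nonneg_right c2 (show 0 ≤ 1 - e by linarith)]
  generalize c / K = t at *
  have t3 : ρ ≤ 2 * t := by nlinarith
  refine ⟨t3, fun h => abs_le.2 ⟨by nlinarith, ?_⟩⟩
  have t4 : t ≤ 2 * ρ := by nlinarith
  nlinarith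

theorem near {X : ℕ} {V : ℤ} (hV : 8 * 4 ^ X ≤ V) : ∃ h : ℤ,
    |((V : ℝ) + 1) ^ (2 * X) / V ^ X - ((X.centralBinom : ℤ) + V * h : ℤ)| ≤ 1 / 8 := by
  have h4 : (0 : ℤ) < 4 ^ X := by positivity
  obtain ⟨lo, hi, h1, h2⟩ := split_sum (range (2 * X + 1)) (fun j => ((2 * X).choose j : ℤ)) id
    (B := V) (by linarith) X
  have e1 : ∑ j ∈ range (2 * X + 1), ((2 * X).choose j : ℤ) * V ^ id j = (V + 1) ^ (2 * X) := by
    rw [add_pow]
    exact sum_congr rfl fun j _ => by simp [mul_comm]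
  have e2 : ∑ j ∈ range (2 * X + 1), |((2 * X).choose j : ℤ)| = 4 ^ X := by
    simp only [Nat.abs_cast]
    rw [← Nat.cast_sum, Nat.sum_range_choose, pow_mul]
    norm_num
  simp only [id] at h1 e1
  rw [e1, filter_eq', if_pos (by simp; omega), sum_singleton, ← Nat.centralBinom] at h1
  rw [e2] at h2
  have h5 : 0 < V ^ X := pow_pos (by linarith) X
  have h3 : 8 * |lo| ≤ V ^ X := by nlinarith [abs_nonneg lo]
  refine ⟨hi, ?_⟩
  rify at h1 h3 h5
  rw [h1, show ((lo : ℝ) + X.centralBinom * V ^ X + V ^ (X + 1) * hi) / V ^ X -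
    ((X.centralBinom : ℤ) + V * hi : ℤ) = lo / V ^ X by push_cast; field_simp; ring, abs_div,
    abs_of_pos h5, div_le_iff₀ h5]
  linarith

theorem pow_le_rho {V : ℝ} (hV : 0 < V) (X : ℕ) : V ^ X ≤ (V + 1) ^ (2 * X) / V ^ X := by
  rw [le_div_iff₀ (by positivity), ← pow_add, ← two_mul]
  exact pow_le_pow_left₀ hV.le (by linarith) _

theorem core_sound {X Y f p q C k l w x y u z : ℤ} (h : core X Y f p q C k l w x y u z = 0) :
    p ^ 2 < q ^ 2 ∧ f ≠ 0 ∧ ∀ n : ℕ, X = n → 1 ≤ n → 5 ≤ Y → f ∣ 2 ^ n ∧ Y ∣ n.centralBinom := by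
  unfold core c2 c3 at h
  set W := 2 * (f * w) ^ 2 with hW
  set V := 4 * W * Y with hV
  set L := l * Y with hL
  set U := 64 * X * L ^ 2 with hU
  set A := U * (V + 1) with hA
  set M := 2 * U ^ 2 * V with hM
  set K := X + 1 + k * (M - 1) with hK
  clear_value K M A U L V W
  obtain ⟨⟨s, hQ⟩, hS, hR, hn, hC⟩ := fin_sound (by omega) h
  have hf := right_ne_zero_of_mul hn
  have hl := left_ne_zero_of_mul (left_ne_zero_of_mul hn)
  have hw := right_ne_zero_of_mul (left_ne_zero_of_mul hn)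
  have r1 : 0 ≤ (C - K * L) ^ 2 * q ^ 2 := by positivity
  have r2 : 0 ≤ p ^ 2 * K ^ 2 := by positivity
  refine ⟨lt_of_mul_lt_mul_right (a := K ^ 2) (by linarith) (sq_nonneg _), hf, ?_⟩
  rintro n rfl hn1 hY
  have r3 : |2 * (C - K * L)| < |K| :=
    sq_lt_sq.1 (lt_of_mul_lt_mul_right (a := q ^ 2) (by linarith) (sq_nonneg _))
  have n1 : (1 : ℤ) ≤ n := by exact_mod_cast hn1
  have W2 : 2 ≤ W := by
    have : 0 < (f * w) ^ 2 := by positivity
    omega
  have V1 : 20 * W ≤ V := by rw [hV]; nlinarith only [W2, hY]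
  have L0 : L ≠ 0 := hL ▸ mul_ne_zero hl (by omega)
  have L5 : 5 ≤ |L| := by
    rw [hL, abs_mul, abs_of_pos (by omega : 0 < Y)]
    nlinarith only [Int.one_le_abs hl, hY]
  have L6 : 1 ≤ L ^ 2 := sq_pos_of_ne_zero L0
  have U1 : 64 * n ≤ U := by rw [hU]; nlinarith only [L6, n1]
  have A1 : U * V ≤ A := by rw [hA, mul_add]; omega
  have UV : U ≤ U * V := le_mul_of_one_le_right (by omega) (by omega)
  have A2 : 3 ≤ A := by omega
  have M0 : 2 * (U * V) + 1 ≤ M := by rw [hM]; nlinarith only [UV, U1, n1]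
  have M1 : 2 * A ≤ 2 * M - 1 := by rw [hA, mul_add U]; omega
  have M2 : 64 * n ≤ M := by omega
  have K1 : n + 1 ≤ |K| := by
    rcases le_or_gt 0 k with g | g
    · exact le_abs.2 (Or.inl (by rw [hK]; nlinarith only [g, M2, n1]))
    · exact le_abs.2 (Or.inr (by rw [hK]; nlinarith only [g, M2, n1]))
  have r4 : |K * L| ≤ |C| + |C - K * L| := by
    have := abs_sub C (C - K * L)
    rwa [sub_sub_cancel] at this
  have r5 : |C| ≤ |K * L| + |C - K * L| := by
    have := abs_add_le (K * L) (C - K * L)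
    rwa [add_sub_cancel] at this
  rw [abs_mul 2, abs_two] at r3
  rw [abs_mul] at r4 r5
  have C1 : 9 * |K| < 2 * |C| := by nlinarith only [abs_nonneg K, r3, r4, L5]
  have hC' := hC A2 (by rw [abs_of_nonneg (by omega)]; linarith)
  have c0 : 0 ≤ ps A (2 * n + 1) := ps_nonneg (by omega) (by omega)
  have aC : |C| = ps A (2 * n + 1) := by
    rcases hC' with g | g <;> rw [g]
    · exact abs_of_nonneg c0
    · rw [abs_neg]; exact abs_of_nonneg c0
  obtain ⟨j, hj⟩ := exists_index (A := M) (by omega) (x := s) (y := K) (by rw [sq, ← hQ, pl])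
  have ej : j = n + 1 := by
    by_contra g
    have d1 : M - 1 ∣ j - (n + 1) := dv ((dvd_mul_left (M - 1) k).sub (ps_index M j))
      (by rw [← hj, hK]; ring)
    have d2 := Int.le_of_dvd (abs_pos.2 (sub_ne_zero.2 g)) ((dvd_abs _ _).2 d1)
    have d3 := abs_sub j (n + 1)
    rw [abs_of_nonneg (by omega : (0 : ℤ) ≤ n + 1)] at d3
    have d4 : ps M (2 * n + 1) ≤ |K| := by
      rw [hj, abs_ps (by omega)]
      exact (ps_strictMono (by omega)).monotone (by omega)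
    have d5 := (ps_bounds (A := M) (by omega) (2 * n)).1
    have d6 := (ps_bounds (A := A) (by omega) (2 * n)).2
    have d7 := pow_le_pow_left₀ (by omega) M1 (2 * n)
    push_cast at d5 d6
    omega
  rw [ej] at hj
  have K0 : 0 < K := by
    have := ps_nonneg (A := M) (n := n + 1) (by omega) (by omega)
    rw [← hj] at this
    rw [abs_of_nonneg this] at K1
    omega
  rw [abs_of_pos K0] at r3 r5
  obtain ⟨t1, t2⟩ := est hn1 (V := V) (by omega) L0 hU
  rw [← hA, ← hM, ← hj, ← aC] at t1 t2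
  have K0' : (0 : ℝ) < K := by exact_mod_cast K0
  have t3 : ((V : ℝ) + 1) ^ (2 * n) / V ^ n ≤ 3 * |(L : ℝ)| := by
    refine t1.trans ?_
    rw [← mul_div_assoc, div_le_iff₀ K0']
    have : 2 * |C| ≤ 3 * |L| * K := by nlinarith only [r3, r5, L5, K0]
    exact_mod_cast this
  have t4 : V ^ n ≤ 3 * |L| := by
    have := (pow_le_rho (V := V) (by exact_mod_cast (by omega : 0 < V)) n).trans t3
    exact_mod_cast this
  have hP := two_pow_congr A (2 * n + 1)
  rw [show (4 : ℤ) ^ (2 * n + 1) = (2 ^ (2 * n + 1)) ^ 2 by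
    rw [← pow_mul, mul_comm _ 2, pow_mul 2 2]; norm_num] at hP
  push_cast at hP
  set P : ℤ := 2 ^ (2 * n + 1) with eP
  have P2 : 2 ≤ P := le_self_pow₀ (by norm_num) (by omega)
  clear_value P
  have big : 2 * (P + W) * (P * W + 1) < 4 * A - 5 := by
    obtain ⟨m, rfl⟩ := Nat.exists_eq_add_of_le' hn1
    have g1 : (4 : ℤ) ^ (2 * m + 1) ≤ V ^ (2 * m + 1) := pow_le_pow_left₀ (by norm_num) (by omega) _
    have g2 : P ^ 2 = 16 * 4 ^ (2 * m + 1) := by
      rw [eP, ← pow_mul, mul_comm _ 2, pow_mul 2 2]; ring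
    have g3 : (V ^ (m + 1)) ^ 2 ≤ (3 * |L|) ^ 2 := 
      pow_le_pow_left₀ (pow_nonneg (by omega) _) t4 2
    have g4 : (V ^ (m + 1)) ^ 2 ≤ U := by
      rw [mul_pow, sq_abs] at g3
      rw [hU]; nlinarith only [g3, L6, n1]
    have g5 : (V ^ (m + 1)) ^ 2 * V = V ^ 2 * V ^ (2 * m + 1) := by ring
    have g6 : (20 * W) ^ 2 ≤ V ^ 2 := pow_le_pow_left₀ (by omega) V1 2
    have g7 := mul_le_mul g6 g1 (by positivity) (sq_nonneg _)
    have g8 : 25 * (P * W) ^ 2 ≤ A := by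
      rw [mul_pow, g2]
      linarith only [mul_le_mul_of_nonneg_right g4 (show 0 ≤ V by omega), g5, g7, A1]
    have g9 : P + W ≤ P * W := by nlinarith only [P2, W2]
    nlinarith only [g8, g9, P2, W2]
  have PW : 4 ≤ P * W := by nlinarith only [P2, W2]
  rcases hC' with g | g
  · have d1 : 4 * A - 5 ∣ 2 * (P - W) * (P * W + 1) :=
      dv ((hS.mul_left P).sub (hP.mul_left W)) (by rw [g]; ring)
    have d2 := Int.eq_zero_of_abs_lt_dvd d1 (abs_lt.2
      ⟨by nlinarith only [big, PW, P2], by nlinarith only [big, PW, W2]⟩)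
    have d3 : W = P := by
      have := (mul_eq_zero.1 d2).resolve_right (by omega)
      omega
    have d4 : (f * w) ^ 2 = (2 ^ n) ^ 2 := by
      have : P = 2 * (2 ^ n) ^ 2 := by rw [eP]; ring
      omega
    refine ⟨(dvd_mul_right f w).trans ((Int.pow_dvd_pow_iff two_ne_zero).1 (d4 ▸ dvd_rfl)), ?_⟩
    obtain ⟨e, he⟩ := near (X := n) (V := V) (by
      have g1 : P = 2 * 4 ^ n := by rw [eP, pow_succ, pow_mul]; ring
      have g2 : (0 : ℤ) < 4 ^ n := by positivity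
      rw [hV, d3, g1]; nlinarith only [g2, hY])
    have t5 := t2 t3
    rw [aC, ← g] at t5
    have t6 : |(C : ℝ) / K - L| < 1 / 2 := by
      rw [show (C : ℝ) / K - L = (C - K * L) / K by field_simp, abs_div, abs_of_pos K0',
        div_lt_iff₀ K0']
      have : 2 * |(C : ℝ) - K * L| < K := by exact_mod_cast r3
      linarith
    have t7 : |L - (n.centralBinom + V * e)| < 1 := by
      rw [abs_le] at he t5
      rw [abs_lt] at t6
      have : |(L : ℝ) - ((n.centralBinom : ℤ) + V * e : ℤ)| < 1 :=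
        abs_lt.2 ⟨by linarith, by linarith⟩
      exact_mod_cast this
    exact ⟨l - 4 * W * e, by linear_combination -(Int.abs_lt_one_iff.1 t7) + hL - e * hV⟩
  · have d1 : 4 * A - 5 ∣ 2 * (P + W) * (P * W - 1) :=
      dv ((hS.mul_left (-P)).sub (hP.mul_left W)) (by rw [g]; ring)
    have := Int.le_of_dvd (by nlinarith only [PW, P2, W2]) d1
    nlinarith only [this, big, P2, W2]

theorem core_complete {n : ℕ} {Y f p q : ℤ} (hn : 1 ≤ n) (hY : 1 ≤ Y) (hp : 4 * p ^ 2 ≤ q ^ 2)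
    (hq : q ≠ 0) (hf : f ∣ 2 ^ n) (hd : Y ∣ n.centralBinom) :
    ∃ C k l w x y u z, core n Y f p q C k l w x y u z = 0 := by
  obtain ⟨w, hw⟩ := hf
  obtain ⟨d, hd⟩ := hd
  set W := 2 * (f * w) ^ 2 with hW
  have eW : W = 2 ^ (2 * n + 1) := by rw [hW, ← hw]; ring
  have eW' : W = 2 * 4 ^ n := by rw [eW, pow_succ, pow_mul]; ring
  have g2 : (0 : ℤ) < 4 ^ n := by positivity
  set V := 4 * W * Y with hV
  have V1 : 8 * 4 ^ n ≤ V := by rw [hV, eW']; nlinarith only [g2, hY]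
  obtain ⟨e, he⟩ := near V1
  set l := d + 4 * W * e with hl
  set L := l * Y with hL
  rw [show (n.centralBinom : ℤ) + V * e = L by rw [hd, hL, hl, hV]; ring, abs_le] at he
  have V2 : (1 : ℝ) ≤ V := by exact_mod_cast (by omega : 1 ≤ V)
  have t0 := (one_le_pow₀ V2).trans (pow_le_rho (V := V) (by linarith) n)
  have L1 : 0 < L := by
    have : (0 : ℝ) < L := by linarith
    exact_mod_cast this
  have L2 : (1 : ℝ) ≤ L := by exact_mod_cast L1
  set U := 64 * n * L ^ 2 with hU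
  have t1 := (est hn (V := V) (by omega) L1.ne' hU).2 (by rw [abs_of_pos (by linarith)]; linarith)
  have U1 : 0 < U := by positivity
  set A := U * (V + 1) with hA
  set M := 2 * U ^ 2 * V with hM
  obtain ⟨k, hk⟩ := ps_index M (n + 1)
  have eK : n + 1 + k * (M - 1) = ps M (n + 1) := by linarith
  have K0 : 0 < ps M (n + 1) :=
    ps_zero M ▸ ps_strictMono (by rw [hM]; nlinarith only [pow_pos U1 2, V1, g2]) (by omega)
  have hQ : IsSquare (pl M (ps M (n + 1))) := ⟨ch M (n + 1), by rw [pl, ← pell, sq]⟩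
  set K := ps M (n + 1)
  set C := ps A (2 * n + 1) with hC
  have K0' : (0 : ℝ) < K := by exact_mod_cast K0
  have t2 : |4 * (C - K * L)| ≤ K := by
    have g : |(C : ℝ) / K - L| ≤ 1 / 4 := by
      rw [abs_le] at t1 ⊢
      constructor <;> linarith
    rw [show (C : ℝ) / K - L = (C - K * L) / K by field_simp, abs_div, abs_of_pos K0',
      div_le_iff₀ K0'] at g
    have : |4 * ((C : ℝ) - K * L)| ≤ K := by rw [abs_mul, abs_of_pos four_pos]; linarith
    exact_mod_cast this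
  have t3 : (4 * (C - K * L)) ^ 2 ≤ K ^ 2 := sq_le_sq.2 (t2.trans (le_abs_self K))
  have fw : f * w ≠ 0 := by rw [← hw]; positivity
  obtain ⟨x, y, u, z, h⟩ := fin_complete (A := A) (B := 2 * n + 1)
    (R := q ^ 2 * K ^ 2 - p ^ 2 * K ^ 2 - 4 * (C - K * L) ^ 2 * q ^ 2) (n := l * w * f)
    (S := 4 * A - 5) (T := 3 * W * C - 2 * (W ^ 2 - 1))
    (by rw [hA]; nlinarith only [U1, V1, g2]) (by omega)
    (by linarith only [mul_le_mul_of_nonneg_right hp (sq_nonneg K),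
      mul_le_mul_of_nonneg_right t3 (sq_nonneg q), mul_pos (sq_pos_of_ne_zero hq) (pow_pos K0 2)])
    (by rw [mul_assoc, mul_comm w]; exact mul_ne_zero (left_ne_zero_of_mul L1.ne') fw)
    (by
      have := two_pow_congr A (2 * n + 1)
      rw [eW, ← pow_mul, mul_comm _ 2, pow_mul 2 2]
      exact_mod_cast this) hQ
  refine ⟨C, k, l, w, x, y, u, z, ?_⟩
  unfold core c2 c3
  rw [← hW, ← hV, ← hL, ← hU, ← hA, ← hM, eK]
  exact h

end Pool.Agent.MP_fed7c7_lc.H56
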