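import Mathlib
import Pool.Agent.Shared.H68.MRDP
import Pool.Agent.MP_fed7c7_lc.H56.Bits

set_option autoImplicit false

/-!
The value of a polynomial as one digit of a number computed from a code of its arguments.
-/

namespace Pool.Agent.MP_fed7c7_lc.H56

open Finset

theorem poly_form {γ : Type} (p : Poly γ) : ∃ (J τ : Type) (_ : Fintype J) (_ : Fintype τ)
    (c : J → ℤ) (μ : J → τ → Option γ),
    ∀ v : γ → ℕ, p v = ∑ j, c j * ∏ t, (((μ j t).elim 1 v : ℕ) : ℤ) := by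
  induction p using Poly.induction with
  | H1 i => exact ⟨Unit, Unit, inferInstance, inferInstance, fun _ => 1, fun _ _ => some i,
      fun v => by simp⟩
  | H2 n => exact ⟨Unit, Empty, inferInstance, inferInstance, fun _ => n, fun _ _ => none,
      fun v => by simp⟩
  | H3 f g hf hg =>
    obtain ⟨J, τ, _, _, c, μ, h⟩ := hf
    obtain ⟨J', τ', _, _, c', μ', h'⟩ := hg
    exact ⟨J ⊕ J', τ ⊕ τ', inferInstance, inferInstance, Sum.elim c fun j => -c' j,
      Sum.elim (fun j => Sum.elim (μ j) fun _ => none) fun j => Sum.elim (fun _ => none) (μ' j),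
      fun v => by simp [h, h', sub_eq_add_neg]⟩
  | H4 f g hf hg =>
    obtain ⟨J, τ, _, _, c, μ, h⟩ := hf
    obtain ⟨J', τ', _, _, c', μ', h'⟩ := hg
    refine ⟨J × J', τ ⊕ τ', inferInstance, inferInstance, fun j => c j.1 * c' j.2,
      fun j => Sum.elim (μ j.1) (μ' j.2), fun v => ?_⟩
    rw [Poly.mul_apply, h, h', sum_mul_sum, Fintype.sum_prod_type]
    refine sum_congr rfl fun j _ => sum_congr rfl fun j' _ => ?_
    simp only [Fintype.prod_sum_type, Sum.elim_inl, Sum.elim_inr]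
    ring

theorem normal_form (p : ℕ → Prop) (hp : REPred p) : ∃ (J τ : Type) (_ : Fintype J)
    (_ : Fintype τ) (ν : ℕ) (c : J → ℤ) (μ : J → τ → ℕ), (∀ j t, μ j t < ν + 2) ∧
    ∀ a, p a ↔ ∃ x : ℕ → ℕ, x ν = a ∧ x (ν + 1) = 1 ∧ ∑ j, c j * ∏ t, (x (μ j t) : ℤ) = 0 := by
  classical
  obtain ⟨β, q, hq⟩ := Shared.H68.mrdp p hp
  obtain ⟨J, τ, _, _, c, μ, h⟩ := poly_form q
  let s : Finset (Option (Unit ⊕ β)) := univ.image fun e : J × τ => μ e.1 e.2
  have ms : ∀ j t, μ j t ∈ s := fun j t => mem_image.2 ⟨(j, t), mem_univ _, rfl⟩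
  let r : Option (Unit ⊕ β) → ℕ := fun o => if h : o ∈ s then s.equivFin ⟨o, h⟩ else 0
  have r1 : ∀ o ∈ s, r o < #s := fun o h => by simp [r, h]
  let idx : Option (Unit ⊕ β) → ℕ := fun o =>
    o.elim (#s + 1) (Sum.elim (fun _ => #s) fun b => r (some (.inr b)))
  refine ⟨J, τ, inferInstance, inferInstance, #s, c, fun j t => idx (μ j t), fun j t => ?_,
    fun a => (hq fun _ => a).trans ⟨?_, ?_⟩⟩
  · have := r1 _ (ms j t)
    dsimp only
    generalize μ j t = o at this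
    rcases o with _ | _ | b <;> simp only [idx, Option.elim, Sum.elim_inl, Sum.elim_inr] <;> omega
  · rintro ⟨z, hz⟩
    refine ⟨fun k => if h : k < #s then
      (s.equivFin.symm ⟨k, h⟩).1.elim 1 (Sum.elim (fun _ => a) z) else if k = #s then a else 1,
      by simp, by simp, ?_⟩
    rw [← hz, h]
    refine sum_congr rfl fun j _ => congrArg _ (prod_congr rfl fun t _ => congrArg _ ?_)
    have h1 := ms j t
    have h2 := r1 _ h1
    dsimp only
    generalize μ j t = o at h1 h2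
    rcases o with _ | _ | b
    · simp [idx]
    · simp [idx]
    · simp [idx, r, h1]
  · rintro ⟨x, rfl, h1, h2⟩
    refine ⟨fun b => x (r (some (.inr b))), ?_⟩
    rw [← h2, h]
    refine sum_congr rfl fun j _ => congrArg _ (prod_congr rfl fun t _ => congrArg _ ?_)
    dsimp only
    rcases μ j t with _ | _ | b <;> simp [idx, h1]

theorem same_monomial {τ : Type} [Fintype τ] {n : ℕ} {φ ψ : τ → ℕ} (h1 : ∀ t, φ t < n)
    (h2 : ∀ t, ψ t < n)
    (h : ∑ t, (Fintype.card τ + 2) ^ φ t = ∑ t, (Fintype.card τ + 2) ^ ψ t) (x : ℕ → ℤ) :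
    ∏ t, x (φ t) = ∏ t, x (ψ t) := by
  have key : ∀ φ : τ → ℕ, (∀ t, φ t < n) → ∀ i < n,
      (∑ t, (Fintype.card τ + 2) ^ φ t) / (Fintype.card τ + 2) ^ i % (Fintype.card τ + 2) =
        #{t | φ t = i} := by
    intro φ h i hi
    rw [← sum_fiberwise_of_maps_to' (t := range n) (fun t _ => mem_range.2 (h t))]
    simp only [sum_const, smul_eq_mul]
    exact Shared.H68.digit_sum _ i (fun k => #{t | φ t = k}) n hi fun k =>
      (card_le_univ _).trans_lt (by omega)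
  rw [← prod_fiberwise_of_maps_to' (t := range n) (fun t _ => mem_range.2 (h1 t)),
    ← prod_fiberwise_of_maps_to' (t := range n) (fun t _ => mem_range.2 (h2 t))]
  refine prod_congr rfl fun i hi => ?_
  rw [prod_const, prod_const, ← key φ h1 i (mem_range.1 hi), h, key ψ h2 i (mem_range.1 hi)]

/-- The constants of the coding. -/
structure Dat where
  ν : ℕ
  δ : ℕ
  N : ℕ
  β : ℕ
  nn : ℕ → ℕ
  D : Polynomial ℤ
  P : (ℕ → ℕ) → ℤ
  mono : StrictMono nn
  deg : δ * nn (ν + 1) ≤ N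
  size : ∀ B : ℤ, 1 ≤ B → 3 ^ δ * |D.eval B| ≤ 2 ^ β * B ^ N
  digit : ∀ (x : ℕ → ℕ) (b B : ℤ), 1 ≤ B → (∀ i < ν + 2, (x i : ℤ) ≤ b) → ∃ lo hi : ℤ,
    B * D.eval B * (∑ i ∈ range (ν + 2), x i * B ^ nn i) ^ δ =
      lo + P x * B ^ (N + 1) + B ^ (N + 2) * hi ∧
    |lo| ≤ 2 ^ β * b ^ δ * B ^ N ∧ |P x| ≤ 2 ^ β * b ^ δ

theorem exists_dat (p : ℕ → Prop) (hp : REPred p) :
    ∃ d : Dat, ∀ a, p a ↔ ∃ x : ℕ → ℕ, x d.ν = a ∧ x (d.ν + 1) = 1 ∧ d.P x = 0 := by
  classical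
  obtain ⟨J, τ, _, _, ν, c, μ, hμ, h⟩ := normal_form p hp
  set δ := Fintype.card τ with hδ
  let π : (τ → ℕ) → ℕ := fun φ => ∑ t, (δ + 2) ^ φ t
  let Φ : Finset (τ → ℕ) := Fintype.piFinset fun _ => range (ν + 2)
  have mΦ : ∀ φ, φ ∈ Φ ↔ ∀ t, φ t < ν + 2 := fun φ => by simp [Φ]
  let N := δ * (δ + 2) ^ (ν + 1)
  have πN : ∀ j, π (μ j) ≤ N := fun j =>
    sum_le_card_nsmul _ _ _ fun t _ => Nat.pow_le_pow_right (by omega) (Nat.lt_succ_iff.1 (hμ j t))
  have hw : ∀ j, ∃ w : ℕ, (#Φ).factorial = #{φ ∈ Φ | π φ = π (μ j)} * w := fun j =>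
    Nat.dvd_factorial (card_pos.2 ⟨μ j, mem_filter.2 ⟨(mΦ _).2 (hμ j), rfl⟩⟩) (card_filter_le _ _)
  choose w hw using hw
  let κ : ℤ := ∑ j, |w j * c j|
  have κ0 : 0 ≤ κ := sum_nonneg fun _ _ => abs_nonneg _
  obtain ⟨β, hβ⟩ := pow_unbounded_of_one_lt (κ * (3 ^ δ + #Φ)) (one_lt_two (α := ℤ))
  have β1 : 3 ^ δ * κ ≤ 2 ^ β := by nlinarith [mul_nonneg κ0 (Nat.cast_nonneg #Φ)]
  have β2 : κ * #Φ ≤ 2 ^ β := by nlinarith [mul_nonneg κ0 (pow_pos three_pos δ).le]
  refine ⟨⟨ν, δ, N, β, fun i => (δ + 2) ^ i,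
    ∑ j, Polynomial.C (w j * c j) * Polynomial.X ^ (N - π (μ j)),
    fun x => (#Φ).factorial * ∑ j, c j * ∏ t, (x (μ j t) : ℤ),
    fun i k hik => Nat.pow_lt_pow_right (by omega) hik, le_rfl, fun B hB => ?_,
    fun x b B hB hx => ?_⟩, fun a => ?_⟩
  · simp only [Polynomial.eval_finsetSum, Polynomial.eval_mul, Polynomial.eval_C,
      Polynomial.eval_pow, Polynomial.eval_X]
    have h1 : |∑ j, w j * c j * B ^ (N - π (μ j))| ≤ κ * B ^ N := by
      rw [sum_mul]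
      refine (abs_sum_le_sum_abs _ _).trans (sum_le_sum fun j _ => ?_)
      rw [abs_mul _ (B ^ _), abs_of_nonneg (by positivity : 0 ≤ B ^ _)]
      exact mul_le_mul_of_nonneg_left (pow_le_pow_right₀ hB (Nat.sub_le _ _)) (abs_nonneg _)
    calc _ ≤ 3 ^ δ * (κ * B ^ N) := mul_le_mul_of_nonneg_left h1 (by positivity)
      _ = 3 ^ δ * κ * B ^ N := by ring
      _ ≤ _ := mul_le_mul_of_nonneg_right β1 (by positivity)
  · simp only [Polynomial.eval_finsetSum, Polynomial.eval_mul, Polynomial.eval_C,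
      Polynomial.eval_pow, Polynomial.eval_X]
    have b0 : 0 ≤ b := (Nat.cast_nonneg _).trans (hx 0 (by omega))
    obtain ⟨lo, hi, h1, h2⟩ := split_sum (univ ×ˢ Φ)
      (fun e : J × (τ → ℕ) => w e.1 * c e.1 * ∏ t, (x (e.2 t) : ℤ))
      (fun e => N - π (μ e.1) + π e.2 + 1) hB (N + 1)
    have h3 : ∑ e ∈ univ ×ˢ Φ, |w e.1 * c e.1 * ∏ t, (x (e.2 t) : ℤ)| ≤ 2 ^ β * b ^ δ := by
      refine le_trans ?_ (mul_le_mul_of_nonneg_right β2 (by positivity))
      rw [sum_product, sum_mul, sum_mul]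
      refine sum_le_sum fun j _ => (sum_le_card_nsmul _ _ (|w j * c j| * b ^ δ)
        fun φ hφ => ?_).trans_eq (by rw [nsmul_eq_mul]; ring)
      rw [abs_mul _ (∏ t, _), abs_of_nonneg (by positivity : (0 : ℤ) ≤ ∏ t, _)]
      refine mul_le_mul_of_nonneg_left ?_ (abs_nonneg _)
      rw [hδ, ← card_univ, ← prod_const]
      exact prod_le_prod (fun _ _ => by positivity) fun t _ => hx _ ((mΦ φ).1 hφ t)
    have h4 : ∑ e ∈ univ ×ˢ Φ with N - π (μ e.1) + π e.2 + 1 = N + 1,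
        w e.1 * c e.1 * ∏ t, (x (e.2 t) : ℤ) =
          (#Φ).factorial * ∑ j, c j * ∏ t, (x (μ j t) : ℤ) := by
      rw [sum_filter, sum_product, mul_sum]
      refine sum_congr rfl fun j _ => ?_
      rw [← sum_filter, filter_congr (q := fun φ => π φ = π (μ j))
        (fun φ _ => by have := πN j; dsimp only; omega),
        sum_eq_card_nsmul (b := w j * c j * ∏ t, (x (μ j t) : ℤ)) fun φ hφ => by
          rw [same_monomial ((mΦ φ).1 (mem_filter.1 hφ).1) (hμ j) (mem_filter.1 hφ).2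
            fun i => x i], hw j]
      push_cast
      ring
    refine ⟨lo, hi, ?_, ?_, ?_⟩
    · have e : ∀ G : ℤ, G ^ δ = ∏ _t : τ, G := fun G => by rw [prod_const, card_univ]
      rw [← h4, ← h1, sum_product, e, prod_univ_sum, mul_assoc, sum_mul_sum, mul_sum]
      refine sum_congr rfl fun j _ => ?_
      rw [mul_sum]
      refine sum_congr rfl fun φ _ => ?_
      rw [prod_mul_distrib, prod_pow_eq_pow_sum]
      change _ * (_ * (_ * B ^ π φ)) = _
      ring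
    · refine le_of_mul_le_mul_left (h2.trans ?_) (show 0 < B by omega)
      exact (mul_le_mul_of_nonneg_right h3 (by positivity)).trans_eq (by ring)
    · rw [← h4]
      exact (abs_sum_le_sum_abs _ _).trans ((sum_le_sum_of_subset_of_nonneg (filter_subset _ _)
        fun _ _ _ => abs_nonneg _).trans h3)
  · simp [h a, Nat.factorial_ne_zero]

end Pool.Agent.MP_fed7c7_lc.H56
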