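import Mathlib
import Pool.Agent.MP_fed7c7_lc.H56.Tens
import Pool.Agent.MP_fed7c7_lc.H56.Binom

set_option autoImplicit false

/-!
Every recursively enumerable set is defined by one equation in ten integer unknowns.
-/

namespace Pool.Agent.MP_fed7c7_lc.H56

open Finset

/-- Powers of two. -/
def P2 (M : ℕ) : Prop := ∃ n, M = 2 ^ n

theorem P2.pow {M : ℕ} (h : P2 M) (k : ℕ) : P2 (M ^ k) := by
  obtain ⟨n, rfl⟩ := h
  exact ⟨n * k, (pow_mul _ _ _).symm⟩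

theorem P2.mul {M K : ℕ} (h : P2 M) (g : P2 K) : P2 (M * K) := by
  obtain ⟨n, rfl⟩ := h
  obtain ⟨k, rfl⟩ := g
  exact ⟨n + k, (pow_add _ _ _).symm⟩

theorem P2.block {M a b : ℕ} (h : P2 M) (x : ℕ) (g : a < M) :
    x &&& (a + M * b) = 0 ↔ x % M &&& a = 0 ∧ x / M &&& b = 0 := by
  obtain ⟨n, rfl⟩ := h
  exact and_block x g

theorem P2.low {M m : ℕ} (h : P2 M) (x : ℕ) (g : m + 1 = M) : x &&& m = 0 ↔ M ∣ x := by
  obtain ⟨n, rfl⟩ := h
  exact and_low g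

theorem P2.high {M b m : ℕ} (h : P2 M) (hb : P2 b) (x : ℕ) (g : m + b = M) :
    x &&& m = 0 ↔ x % M < b := by
  obtain ⟨n, rfl⟩ := h
  obtain ⟨s, rfl⟩ := hb
  exact and_high ((Nat.pow_le_pow_iff_right one_lt_two).1 (by omega)) g

theorem P2.kummer {M S T S' T' : ℕ} (h : P2 M) (hS : S + S' + 1 = M) (hT : T + T' + 1 = M) :
    M ^ 2 ∣ (S' + M * (T' + M * (S + T))).centralBinom ↔ S &&& T = 0 := by
  obtain ⟨n, rfl⟩ := h
  exact H56.kummer hS hT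

theorem small {nn : ℕ → ℕ} (hn : StrictMono nn) {b B : ℕ} (hB : 2 * b ≤ B) (z : ℕ → ℕ) (i : ℕ)
    (hz : ∀ j < i, z j < b) : 2 * ∑ j ∈ range i, z j * B ^ nn j ≤ B ^ nn i := by
  induction i with
  | zero => simp
  | succ i ih =>
    have h1 := ih fun j hj => hz j (by omega)
    have h2 := hz i (by omega)
    have h3 : B ^ (nn i + 1) ≤ B ^ nn (i + 1) :=
      Nat.pow_le_pow_right (by omega) (hn (Nat.lt_succ_self i))
    have h4 := Nat.mul_le_mul_left (B ^ nn i) (show 2 * z i + 1 ≤ B by omega)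
    rw [pow_succ] at h3
    rw [sum_range_succ]
    linarith

theorem mask {nn : ℕ → ℕ} (hn : StrictMono nn) {b B : ℕ} (hb : 1 ≤ b) (hB : 2 * b ≤ B) (i : ℕ) :
    ∃ t : ℕ, (t : ℤ) = B ^ nn i - 1 - (b - 1) * ∑ j ∈ range i, (B : ℤ) ^ nn j ∧ t < B ^ nn i ∧
      (P2 b → P2 B → ∀ g : ℕ, g &&& t = 0 ↔
        ∃ z : ℕ → ℕ, (∀ j < i, z j < b) ∧ g % B ^ nn i = ∑ j ∈ range i, z j * B ^ nn j) := by
  have B0 : ∀ k, 0 < B ^ k := fun k => pow_pos (by omega) k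
  induction i with
  | zero =>
    obtain ⟨t, ht⟩ := Nat.exists_eq_add_of_le' (B0 (nn 0))
    refine ⟨t, by zify at ht; simp [ht], by omega, fun _ h g => ?_⟩
    rw [(h.pow _).low g ht.symm, Nat.dvd_iff_mod_eq_zero]
    simp
  | succ i ih =>
    obtain ⟨t, h1, h2, h3⟩ := ih
    obtain ⟨e, he⟩ := Nat.exists_eq_add_of_lt (hn (Nat.lt_succ_self i))
    have he' : B ^ nn (i + 1) = B ^ nn i * B ^ (e + 1) := by rw [he, add_assoc, pow_add]
    obtain ⟨m, hm⟩ := Nat.exists_eq_add_of_le'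
      (show b ≤ B ^ (e + 1) from le_trans (by omega) (Nat.le_self_pow (by omega) B))
    refine ⟨t + B ^ nn i * m, ?_, by rw [he', hm]; nlinarith, fun p1 p2 g => ?_⟩
    · zify at hm he'
      rw [sum_range_succ, he', hm]
      push_cast
      rw [h1]
      ring
    rw [(p2.pow _).block g h2, h3 p1 p2, Nat.mod_mod, (p2.pow _).high p1 _ hm.symm, he',
      Nat.mod_mul]
    constructor
    · rintro ⟨⟨z, z1, z2⟩, z3⟩
      refine ⟨Function.update z i (g / B ^ nn i % B ^ (e + 1)), fun j hj => ?_, ?_⟩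
      · rcases (Nat.lt_succ_iff.1 hj).eq_or_lt with rfl | hj
        · simpa using z3
        · rw [Function.update_of_ne hj.ne]; exact z1 j hj
      · rw [sum_range_succ, Function.update_self, z2, mul_comm]
        congr 1
        exact sum_congr rfl fun j hj => by rw [Function.update_of_ne (mem_range.1 hj).ne]
    · rintro ⟨z, z1, z2⟩
      have h4 := small hn hB z i fun j hj => z1 j (by omega)
      have h5 := B0 (nn i)
      rw [sum_range_succ] at z2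
      have h6 := congrArg (· % B ^ nn i) z2
      simp only [Nat.add_mul_mod_self_left, Nat.add_mul_mod_self_right, Nat.mod_mod] at h6
      rw [Nat.mod_eq_of_lt (show ∑ j ∈ range i, z j * B ^ nn j < B ^ nn i by omega)] at h6
      refine ⟨⟨z, fun j hj => z1 j (by omega), h6⟩, ?_⟩
      rw [h6, add_left_cancel_iff, mul_comm] at z2
      rw [Nat.eq_of_mul_eq_mul_right h5 z2]
      exact z1 i (by omega)

def s1 (d : Dat) (a g H B : ℤ) : ℤ :=
  B * d.D.eval B * (g + a * B ^ d.nn d.ν + B ^ d.nn (d.ν + 1)) ^ d.δ + H * B ^ d.N +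
    H * B ^ (2 * d.N + 2)

def sS (d : Dat) (a g H B : ℤ) : ℤ :=
  g + 2 * B ^ d.nn d.ν + B ^ (d.nn d.ν + 1) * s1 d a g H B

def tT (d : Dat) (b H B : ℤ) : ℤ :=
  B ^ d.nn d.ν - 1 - (b - 1) * ∑ j ∈ range d.ν, B ^ d.nn j + B ^ d.nn d.ν * 1 +
    B ^ (d.nn d.ν + 1) * (0 + B ^ (d.N + 1) * (H - 1))

def nN (d : Dat) (B : ℤ) : ℤ := B ^ (d.nn d.ν + 1) * B ^ (2 * d.N + 3)

def xX (S T M : ℤ) : ℤ := M - 1 - S + M * (M - 1 - T + M * (S + T))

def hf (d : Dat) (b : ℤ) : ℤ := 2 ^ (d.β + 1) * b ^ (d.δ + 1)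

theorem s1_range (d : Dat) {a g H B : ℤ} (ha : 0 ≤ a) (haB : a ≤ B) (hH : 2 ^ d.β ≤ H)
    (hB : B = 2 * H) (B4 : 4 ≤ B) (hg : |g| ≤ B ^ d.nn d.ν) :
    0 ≤ s1 d a g H B ∧ s1 d a g H B < B ^ (2 * d.N + 3) := by
  have B1 : 1 ≤ B := by omega
  have h0 : 0 < B ^ d.nn d.ν := by positivity
  have h1 : B ^ (d.nn d.ν + 1) ≤ B ^ d.nn (d.ν + 1) :=
    pow_le_pow_right₀ B1 (d.mono (Nat.lt_succ_self _))
  rw [pow_succ] at h1
  have h2 : |g + a * B ^ d.nn d.ν + B ^ d.nn (d.ν + 1)| ≤ 3 * B ^ d.nn (d.ν + 1) := by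
    rw [abs_le] at hg ⊢
    constructor <;> nlinarith
  have h3 := pow_le_pow_left₀ (abs_nonneg _) h2 d.δ
  rw [mul_pow, ← pow_mul, ← abs_pow] at h3
  have h4 : B ^ (d.nn (d.ν + 1) * d.δ) ≤ B ^ d.N := pow_le_pow_right₀ B1 (mul_comm d.δ _ ▸ d.deg)
  have h5 := d.size B B1
  unfold s1
  generalize (g + a * B ^ d.nn d.ν + B ^ d.nn (d.ν + 1)) ^ d.δ = G at *
  have h6 : |d.D.eval B * G| ≤ H * (B ^ d.N) ^ 2 := by
    rw [abs_mul]
    calc _ ≤ |d.D.eval B| * (3 ^ d.δ * B ^ d.N) := mul_le_mul_of_nonneg_left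
          (h3.trans (mul_le_mul_of_nonneg_left h4 (by positivity))) (abs_nonneg _)
      _ = 3 ^ d.δ * |d.D.eval B| * B ^ d.N := by ring
      _ ≤ H * B ^ d.N * B ^ d.N := mul_le_mul_of_nonneg_right
          (h5.trans (mul_le_mul_of_nonneg_right hH (by positivity))) (by positivity)
      _ = _ := by ring
  have h7 : 1 ≤ B ^ d.N := one_le_pow₀ B1
  rw [show B ^ (2 * d.N + 2) = B * (B * (B ^ d.N) ^ 2) by ring,
    show B ^ (2 * d.N + 3) = B * (B * (B * (B ^ d.N) ^ 2)) by ring, mul_assoc B]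
  generalize B ^ d.N = Q at *
  generalize d.D.eval B * G = Z at *
  rw [abs_le] at h6
  have H0 : 0 < H := by omega
  have k1 := mul_le_mul_of_nonneg_left h6.1 (show 0 ≤ B by omega)
  have k2 := mul_le_mul_of_nonneg_left h6.2 (show 0 ≤ B by omega)
  have k3 : H * Q ≤ H * Q ^ 2 := mul_le_mul_of_nonneg_left (by nlinarith only [h7]) H0.le
  have k4 : 0 < H * Q := by positivity
  have k5 : 0 < H * Q ^ 2 := by positivity
  have k6 : B * (B * (B * Q ^ 2)) = 2 * (B * (B * (H * Q ^ 2))) := by rw [hB]; ring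
  have k7 : H * (B * (B * Q ^ 2)) = B * (B * (H * Q ^ 2)) := by ring
  rw [k6, k7]
  generalize H * Q ^ 2 = U at *
  have k8 : 4 * U ≤ B * U := by nlinarith only [B4, k5]
  have k9 : 4 * (B * U) ≤ B * (B * U) := by nlinarith only [B4, k5, k8]
  constructor <;> linarith

theorem s1_digit (d : Dat) {b H B s : ℕ} (hH : (H : ℤ) = hf d b) (hB : B = 2 * H) (hb : 1 ≤ b)
    (x : ℕ → ℕ) (h1 : x (d.ν + 1) = 1) (hx : ∀ i < d.ν + 2, x i ≤ b)
    (hs : (s : ℤ) = s1 d (x d.ν) (∑ j ∈ range d.ν, x j * B ^ d.nn j : ℕ) H B) :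
    H ∣ s / B ^ (d.N + 1) ↔ d.P x = 0 := by
  have b1 : (1 : ℤ) ≤ b := by exact_mod_cast hb
  have e0 : (0 : ℤ) < 2 ^ d.β * b ^ d.δ := by positivity
  have e1 : (2 : ℤ) ^ d.β * b ^ d.δ < H := by
    rw [hH, hf, pow_succ, pow_succ]; nlinarith
  have eB : (B : ℤ) = 2 * H := by exact_mod_cast hB
  obtain ⟨lo, hi, k1, k2, k3⟩ := d.digit x b B (by omega) fun i h => by exact_mod_cast hx i h
  rw [sum_range_succ, sum_range_succ, h1, Nat.cast_one, one_mul] at k1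
  rw [s1, Nat.cast_sum] at hs
  push_cast at hs
  rw [k1] at hs
  have q0 : (0 : ℤ) < B ^ d.N := pow_pos (by omega) _
  have k4 := k2.trans_lt (mul_lt_mul_of_pos_right e1 q0)
  rw [abs_lt] at k4
  have k5 : (s : ℤ) / B ^ (d.N + 1) = d.P x + H * (2 * hi + B ^ (d.N + 1)) := by
    refine ((Int.ediv_emod_unique (r := lo + H * B ^ d.N) (pow_pos (by omega) _)).2
      ⟨?_, by linarith, ?_⟩).1
    · rw [hs]
      linear_combination (-(B : ℤ) ^ (d.N + 1) * hi) * eB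
    · rw [pow_succ]
      nth_rw 3 [eB]
      linarith
  rw [← Int.natCast_dvd_natCast, Int.natCast_ediv, Nat.cast_pow, k5,
    dvd_add_left (dvd_mul_right _ _)]
  exact ⟨fun h => Int.eq_zero_of_abs_lt_dvd h (k3.trans_lt e1), fun h => h ▸ dvd_zero _⟩

theorem code (d : Dat) {a b H B : ℕ} {g : ℤ} (hb : 1 ≤ b) (ha : a ≤ b) (hH : (H : ℤ) = hf d b)
    (hB : B = 2 * H) (hg : g ^ 2 < ((B : ℤ) ^ d.nn d.ν) ^ 2) :
    ∃ n : ℕ, xX (sS d a g H B) (tT d b H B) (nN d B) = n ∧ b ≤ n ∧ 5 ≤ nN d B ^ 2 ∧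
      (P2 b → (nN d B ^ 2 ∣ n.centralBinom ↔ ∃ x : ℕ → ℕ, x d.ν = a ∧ x (d.ν + 1) = 1 ∧
        d.P x = 0 ∧ (∀ j < d.ν, x j < b) ∧ g = (∑ j ∈ range d.ν, x j * B ^ d.nn j : ℕ))) := by
  have eH : H = 2 ^ (d.β + 1) * b ^ (d.δ + 1) := by rw [hf] at hH; exact_mod_cast hH
  have H1 : 2 ^ d.β * 2 ≤ H := by
    rw [eH, pow_succ]; exact Nat.le_mul_of_pos_right _ (by positivity)
  have H2 : b ≤ H := by
    rw [eH]; exact (Nat.le_self_pow (by omega) b).trans (Nat.le_mul_of_pos_left _ (by positivity))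
  have H3 : 0 < 2 ^ d.β := by positivity
  have B0 : ∀ k, 0 < B ^ k := fun k => pow_pos (by omega) k
  obtain ⟨t, t1, t2, t3⟩ := mask d.mono hb (show 2 * b ≤ B by omega) d.ν
  have g1 : |g| < B ^ d.nn d.ν := abs_lt_of_sq_lt_sq hg (by positivity)
  obtain ⟨r1, r2⟩ := s1_range d (a := a) (g := g) (H := H) (B := B) (by omega) (by omega)
    (by exact_mod_cast (by omega : 2 ^ d.β ≤ H)) (by omega) (by omega) g1.le
  obtain ⟨s, hs⟩ := Int.eq_ofNat_of_zero_le r1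
  rw [abs_lt] at g1
  obtain ⟨s0, hs0⟩ := Int.eq_ofNat_of_zero_le (show 0 ≤ g + 2 * B ^ d.nn d.ν by
    linarith [pow_pos (show (0 : ℤ) < B by omega) (d.nn d.ν)])
  obtain ⟨h, hh⟩ := Nat.exists_eq_add_of_le' (show 1 ≤ H by omega)
  set q := B ^ d.nn d.ν with hq
  have eq' : (B : ℤ) ^ d.nn d.ν = q := by rw [hq]; push_cast; rfl
  rw [eq'] at g1 hs0
  have q1 : 4 * q ≤ B ^ (d.nn d.ν + 1) := by
    rw [pow_succ, mul_comm]; exact Nat.mul_le_mul_left _ (by omega)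
  have r3 : s < B ^ (2 * d.N + 3) := by rw [hs] at r2; exact_mod_cast r2
  have r4 : 0 + B ^ (d.N + 1) * h < B ^ (2 * d.N + 3) :=
    calc _ < B ^ (d.N + 1) * B := by
          rw [zero_add]; exact Nat.mul_lt_mul_of_pos_left (by omega) (B0 _)
      _ ≤ _ := by rw [← pow_succ]; exact Nat.pow_le_pow_right (by omega) (by omega)
  have B2 : B ≤ B ^ (2 * d.N + 3) := Nat.le_self_pow (by omega) B
  have eS : sS d a g H B = (s0 + B ^ (d.nn d.ν + 1) * s : ℕ) := by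
    rw [sS, eq', hs0, hs]; push_cast; rfl
  have eT : tT d b H B = (t + q * 1 + B ^ (d.nn d.ν + 1) * (0 + B ^ (d.N + 1) * h) : ℕ) := by
    rw [tT, ← t1, eq', hh]; push_cast; ring
  have eN : nN d B = (B ^ (d.nn d.ν + 1) * B ^ (2 * d.N + 3) : ℕ) := by
    rw [nN]; push_cast; rfl
  have a1 : s0 < B ^ (d.nn d.ν + 1) := by omega
  have a2 : t + q * 1 < B ^ (d.nn d.ν + 1) := by omega
  have lt : ∀ {u v Q R : ℕ}, u < Q → v < R → ∃ w, u + Q * v + w + 1 = Q * R := fun h1 h2 =>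
    (Nat.exists_eq_add_of_lt (by nlinarith)).imp fun _ h => h.symm
  obtain ⟨S', hS⟩ := lt a1 r3
  obtain ⟨T', hT⟩ := lt a2 r4
  have M1 : B ≤ B ^ (d.nn d.ν + 1) * B ^ (2 * d.N + 3) :=
    B2.trans (Nat.le_mul_of_pos_left _ (B0 _))
  have kum := fun p : P2 B => ((p.pow _).mul (p.pow _)).kummer hS hT
  rw [eS, eT, eN]
  have T0 : 0 < t + q * 1 + B ^ (d.nn d.ν + 1) * (0 + B ^ (d.N + 1) * h) := by
    have := B0 (d.nn d.ν); omega
  have blk : P2 B → (_ ↔ _) := fun p => (p.pow _).block (b := 0 + B ^ (d.N + 1) * h)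
    (s0 + B ^ (d.nn d.ν + 1) * s) a2
  generalize t + q * 1 + B ^ (d.nn d.ν + 1) * (0 + B ^ (d.N + 1) * h) = T at *
  rw [Nat.add_mul_mod_self_left, Nat.mod_eq_of_lt a1, Nat.add_mul_div_left _ _ (B0 _),
    Nat.div_eq_of_lt a1, zero_add] at blk
  generalize s0 + B ^ (d.nn d.ν + 1) * s = S at *
  generalize B ^ (d.nn d.ν + 1) * B ^ (2 * d.N + 3) = M at *
  refine ⟨S' + M * (T' + M * (S + T)), ?_, ?_, ?_, fun p => ?_⟩
  · rw [xX, show (M : ℤ) - 1 - S = S' by omega, show (M : ℤ) - 1 - T = T' by omega]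
    push_cast; rfl
  · have : 0 < T' + M * (S + T) := Nat.add_pos_right _ (Nat.mul_pos (by omega) (by omega))
    have := Nat.le_mul_of_pos_right M this
    omega
  · have : (4 : ℤ) ≤ M := by omega
    nlinarith only [this]
  have pH : P2 H := eH ▸ P2.mul ⟨_, rfl⟩ (p.pow _)
  have pB : P2 B := hB ▸ P2.mul ⟨1, rfl⟩ pH
  rw [← Nat.cast_pow, Int.natCast_dvd_natCast, kum pB, blk pB, (pB.pow _).block s0 t2,
    (pB.pow _).block s (B0 _), t3 p pB, Nat.mod_mod, Nat.and_zero, pH.low _ hh.symm,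
    P2.low (M := 2) ⟨1, rfl⟩ _ rfl]
  have q0 : 0 < q := B0 _
  constructor
  · rintro ⟨⟨⟨z, z1, z2⟩, c, z3⟩, -, z4⟩
    have u1 := Nat.mod_add_div s0 q
    have u2 := Nat.mod_lt s0 q0
    rw [z3] at u1
    have u3 : c = 1 := by
      rcases c with _ | _ | c
      · omega
      · rfl
      · have := Nat.mul_le_mul_left q (show 4 ≤ 2 * (c + 1 + 1) by omega)
        omega
    subst u3
    let x : ℕ → ℕ := fun j => if j < d.ν then z j else if j = d.ν then a else 1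
    have x1 : x d.ν = a := by simp [x]
    have x2 : x (d.ν + 1) = 1 := by simp [x]
    have x3 : ∀ j < d.ν, x j < b := fun j hj => by simpa [x, hj] using z1 j hj
    have x4 : g = (∑ j ∈ range d.ν, x j * B ^ d.nn j : ℕ) := by
      rw [sum_congr rfl fun j hj => by rw [show x j = z j from if_pos (mem_range.1 hj)], ← z2,
        ← hq]
      omega
    refine ⟨x, x1, x2, (s1_digit d hH hB hb x x2 (fun i hi => ?_) ?_).1 z4, x3, x4⟩
    · dsimp only [x]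
      split_ifs with c1
      exacts [(z1 i c1).le, ha, hb]
    · rw [x1, ← x4, hs]
  · rintro ⟨x, x1, x2, x0, x3, x4⟩
    have u1 := small d.mono (show 2 * b ≤ B by omega) x d.ν x3
    have u2 : s0 = ∑ j ∈ range d.ν, x j * B ^ d.nn j + q * 2 := by omega
    have u3 : ∑ j ∈ range d.ν, x j * B ^ d.nn j < q := by omega
    refine ⟨⟨⟨x, x3, ?_⟩, ?_⟩, rfl, (s1_digit d hH hB hb x x2 (fun i hi => ?_) ?_).2 x0⟩
    · rw [u2, Nat.add_mul_mod_self_left, Nat.mod_eq_of_lt u3]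
    · rw [u2, Nat.add_mul_div_left _ _ q0, Nat.div_eq_of_lt u3]
    · rcases lt_trichotomy i d.ν with c | c | c
      · exact (x3 i c).le
      · rw [c, x1]; exact ha
      · rw [show i = d.ν + 1 by omega, x2]; exact hb
    · rw [x1, ← x4, hs]

def e2 (d : Dat) (a f g b H B C k l w x y u z : ℤ) : ℤ :=
  core (xX (sS d a g H B) (tT d b H B) (nN d B)) (nN d B ^ 2) f g (B ^ d.nn d.ν) C k l w x y u z

/-- The equation in ten unknowns with the parameters `a` and `e = 2 ^ a`. -/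
def eqn (d : Dat) (a e : ℤ) (v : Fin 10 → ℤ) : ℤ :=
  e2 d a (v 0) (v 1) (e * v 0 ^ 2) (hf d (e * v 0 ^ 2)) (2 * hf d (e * v 0 ^ 2))
    (v 2) (v 3) (v 4) (v 5) (v 6) (v 7) (v 8) (v 9)

section
variable {σ : Type} {a f g b H B C k l w x y u z : (σ → ℤ) → ℤ}

@[fun_prop]
theorem pf_eval (D : Polynomial ℤ) (_ : PF B) : PF fun v => D.eval (B v) := by
  simp only [Polynomial.eval_eq_sum_range]; fun_prop

@[fun_prop]
theorem pf_xX (_ : PF a) (_ : PF b) (_ : PF g) : PF fun v => xX (a v) (b v) (g v) := by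
  unfold xX; fun_prop

@[fun_prop]
theorem pf_e2 (d : Dat) (_ : PF a) (_ : PF f) (_ : PF g) (_ : PF b) (_ : PF H) (_ : PF B)
    (_ : PF C) (_ : PF k) (_ : PF l) (_ : PF w) (_ : PF x) (_ : PF y) (_ : PF u) (_ : PF z) :
    PF fun v => e2 d (a v) (f v) (g v) (b v) (H v) (B v) (C v) (k v) (l v) (w v) (x v) (y v) (u v)
      (z v) := by
  unfold e2 sS tT nN s1; fun_prop

end

theorem pf_eqn (d : Dat) : PF fun v : Fin 12 → ℤ => eqn d (v 0) (v 1) fun i => v i.succ.succ := by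
  unfold eqn hf; fun_prop

theorem eqn_iff (d : Dat) (a : ℕ) :
    (∃ x : ℕ → ℕ, x d.ν = a ∧ x (d.ν + 1) = 1 ∧ d.P x = 0) ↔ ∃ v, eqn d a (2 ^ a) v = 0 := by
  have eb : ∀ f : ℤ, 2 ^ a * f ^ 2 = (2 ^ a * f.natAbs ^ 2 : ℕ) := fun f => by simp
  have eH : ∀ b : ℕ, ((2 ^ (d.β + 1) * b ^ (d.δ + 1) : ℕ) : ℤ) = hf d b := fun b => by simp [hf]
  have ab : ∀ f : ℕ, f ≠ 0 → 1 ≤ 2 ^ a * f ^ 2 ∧ a ≤ 2 ^ a * f ^ 2 := fun f h =>
    ⟨Nat.pos_of_ne_zero (by positivity),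
      a.lt_two_pow_self.le.trans (Nat.le_mul_of_pos_right _ (by positivity))⟩
  constructor
  · rintro ⟨x, x1, x2, x0⟩
    set r := ∑ j ∈ range d.ν, x j with hr
    set b := 2 ^ a * (2 ^ r) ^ 2 with hb
    have b1 : 2 ^ r ≤ b := (Nat.le_self_pow two_ne_zero _).trans
      (Nat.le_mul_of_pos_left _ (by positivity))
    have b2 : r < b := r.lt_two_pow_self.trans_le b1
    have x3 : ∀ j < d.ν, x j < b := fun j hj =>
      (single_le_sum (fun _ _ => Nat.zero_le _) (mem_range.2 hj)).trans_lt b2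
    set H := 2 ^ (d.β + 1) * b ^ (d.δ + 1) with hH
    have H2 : b ≤ H := (Nat.le_self_pow (by omega) b).trans
      (Nat.le_mul_of_pos_left _ (by positivity))
    have u1 := small d.mono (show 2 * b ≤ 2 * H by omega) x d.ν x3
    set g := ∑ j ∈ range d.ν, x j * (2 * H) ^ d.nn j with hg
    have q0 : (0 : ℤ) < ((2 * H : ℕ) : ℤ) ^ d.nn d.ν := pow_pos (by omega) _
    have u2 : 2 * (g : ℤ) ≤ ((2 * H : ℕ) : ℤ) ^ d.nn d.ν := by exact_mod_cast u1
    have u3 : 4 * (g : ℤ) ^ 2 ≤ (((2 * H : ℕ) : ℤ) ^ d.nn d.ν) ^ 2 := by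
      nlinarith only [u2, Int.natCast_nonneg g]
    obtain ⟨n, n1, n2, n3, n4⟩ := code d (g := g) (ab (2 ^ r) (by positivity)).1
      (ab (2 ^ r) (by positivity)).2 (eH b) rfl (by nlinarith only [u3, q0])
    obtain ⟨C, k, l, w, x', y, u, z, h⟩ := core_complete (n := n) (f := 2 ^ r) (by omega)
      (by linarith) u3 q0.ne' (pow_dvd_pow 2 (by omega))
      ((n4 (P2.mul ⟨_, rfl⟩ (P2.pow ⟨_, rfl⟩ _))).2 ⟨x, x1, x2, x0, x3, rfl⟩)
    refine ⟨![2 ^ r, g, C, k, l, w, x', y, u, z], ?_⟩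
    rw [← n1] at h
    have e1 : (2 : ℤ) ^ a * (2 ^ r) ^ 2 = b := by simp [hb]
    change e2 d a (2 ^ r) g (2 ^ a * (2 ^ r) ^ 2) (hf d (2 ^ a * (2 ^ r) ^ 2))
      (2 * hf d (2 ^ a * (2 ^ r) ^ 2)) C k l w x' y u z = 0
    rw [e1, ← eH, ← hH, show 2 * (H : ℤ) = (2 * H : ℕ) by simp]
    exact h
  · rintro ⟨v, h⟩
    rw [eqn, eb, ← eH, show ∀ H : ℕ, 2 * (H : ℤ) = (2 * H : ℕ) by simp] at h
    obtain ⟨h1, h2, h3⟩ := core_sound h
    have f0 := ab _ (Int.natAbs_ne_zero.2 h2)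
    obtain ⟨n, n1, n2, n3, n4⟩ := code d f0.1 f0.2 (eH _) rfl h1
    obtain ⟨h4, h5⟩ := h3 n n1 (by omega) n3
    obtain ⟨r, -, hr⟩ := (Nat.dvd_prime_pow Nat.prime_two).1
      (show (v 0).natAbs ∣ 2 ^ n from Int.natCast_dvd_natCast.1 (by simpa using h4))
    obtain ⟨x, x1, x2, x0, -⟩ := (n4 (P2.mul ⟨_, rfl⟩ (P2.pow ⟨_, hr⟩ _))).1 h5
    exact ⟨x, x1, x2, x0⟩

/-- Recursively enumerable sets reduce to equations in ten integer unknowns. -/
theorem reduction (p : ℕ → Prop) (hp : REPred p) :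
    ∃ c : ℕ → List (ℤ × (Fin 10 → ℕ)), Primrec c ∧ ∀ a, p a ↔ ∃ x, ev (c a) x = 0 := by
  obtain ⟨d, hd⟩ := exists_dat p hp
  obtain ⟨c, h1, h2⟩ := exists_code (pf_eqn d)
  exact ⟨c, h1, fun a => by simp only [hd, eqn_iff, h2]⟩

end Pool.Agent.MP_fed7c7_lc.H56
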